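import Pool.Agent.Helper21.EM.Stmts2
import Pool.Agent.Helper82.AHS.Fld

/-!
# T33, rows EXH and EXT: extension of embeddings
-/

set_option autoImplicit false

open Matrix MT Cardinal

namespace EM

section

variable {n : ℕ} {E : Submodule ℚ (Matrix (Fin n) (Fin n) ℚ)}

/-- the subring of matrices -/
def sbr (E : Submodule ℚ (Matrix (Fin n) (Fin n) ℚ)) (h1 : 1 ∈ E)
    (hm : ∀ X ∈ E, ∀ Y ∈ E, X * Y ∈ E) : Subring (Matrix (Fin n) (Fin n) ℚ) where
  carrier := E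
  mul_mem' := fun hX hY => hm _ hX _ hY
  one_mem' := h1
  add_mem' := fun hX hY => E.add_mem hX hY
  zero_mem' := E.zero_mem
  neg_mem' := fun hX => E.neg_mem hX

theorem RHom.map_zero' {R : Type} [Field R] {a : Matrix (Fin n) (Fin n) ℚ → R} (ha : RHom E a) :
    a 0 = 0 := by
  have := ha.add 0 E.zero_mem 0 E.zero_mem
  rw [add_zero] at this
  exact left_eq_add.mp this

/-- the ring homomorphism -/
def rhm {R : Type} [Field R] {a : Matrix (Fin n) (Fin n) ℚ → R} (h1 : 1 ∈ E)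
    (hm : ∀ X ∈ E, ∀ Y ∈ E, X * Y ∈ E) (ha : RHom E a) : sbr E h1 hm →+* R where
  toFun X := a X.1
  map_one' := ha.one
  map_mul' X Y := ha.mul X.1 X.2 Y.1 Y.2
  map_zero' := ha.map_zero'
  map_add' X Y := ha.add X.1 X.2 Y.1 Y.2

theorem exists_rng {F : Type} [Field F] {a b : Matrix (Fin n) (Fin n) ℚ → F} (h1 : 1 ∈ E)
    (hm : ∀ X ∈ E, ∀ Y ∈ E, X * Y ∈ E) (ha : RHom E a) (hb : RHom E b)
    (hab : ∀ X ∈ E, a X = 0 ↔ b X = 0) :
    ∃ β : (rhm h1 hm ha).range →+* F, Function.Injective β ∧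
      ∀ X (hX : X ∈ E), β ⟨a X, ⟨⟨X, hX⟩, rfl⟩⟩ = b X := by
  have hs : Function.Surjective (rhm h1 hm ha).rangeRestrict := RingHom.rangeRestrict_surjective _
  have hk : RingHom.ker (rhm h1 hm ha).rangeRestrict ≤ RingHom.ker (rhm h1 hm hb) := by
    intro x hx
    have h2 : a x.1 = 0 := congrArg Subtype.val ((RingHom.mem_ker).mp hx)
    exact (hab x.1 x.2).mp h2
  let β := RingHom.liftOfSurjective (rhm h1 hm ha).rangeRestrict hs ⟨rhm h1 hm hb, hk⟩
  have hβ : ∀ x, β ((rhm h1 hm ha).rangeRestrict x) = rhm h1 hm hb x := fun x =>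
    RingHom.liftOfRightInverse_comp_apply _ _ _ ⟨rhm h1 hm hb, hk⟩ x
  refine ⟨β, ?_, fun X hX => hβ ⟨X, hX⟩⟩
  rw [injective_iff_map_eq_zero]
  intro y hy
  obtain ⟨x, rfl⟩ := hs y
  rw [hβ] at hy
  apply Subtype.ext
  exact (hab x.1 x.2).mpr hy

end

/-- Row EXH. -/
theorem st_EXH : ST_EXH := by
  intro n E a b h1 hm ha hb hab
  obtain ⟨β, hβi, hβ⟩ := exists_rng h1 hm ha hb hab
  have hc : #(rhm h1 hm ha).range ≤ ℵ₀ := by
    refine (Cardinal.mk_le_of_surjective (RingHom.rangeRestrict_surjective (rhm h1 hm ha))).trans ?_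
    have h2 : Countable (Matrix (Fin n) (Fin n) ℚ) :=
      inferInstanceAs (Countable (Fin n → Fin n → ℚ))
    exact mk_le_aleph0_iff.mpr (Subtype.countable)
  obtain ⟨τ, hτ⟩ := Pool.Agent.Helper82.AHS.exists_aut hc (rhm h1 hm ha).range.subtype β
    (Subring.subtype_injective _) hβi
  refine ⟨τ, fun X hX => ?_⟩
  rw [← hβ X hX, ← hτ]
  rfl

/-- Row EXT. -/
theorem st_EXT : ST_EXT := by
  intro F C _ _ _ _ _ n E a b ι h1 hm ha hb hab
  obtain ⟨β, hβi, hβ⟩ := exists_rng h1 hm ha hb hab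
  let R := (rhm h1 hm ha).range
  let j : R →+* C := ι.comp β
  have hj : Function.Injective j := ι.injective.comp hβi
  let _ : Algebra R C := j.toAlgebra
  have h2 : Module.IsTorsionFree R C := by
    have : FaithfulSMul R C := (faithfulSMul_iff_algebraMap_injective R C).mpr hj
    infer_instance
  have h3 : Algebra.IsAlgebraic R F := by
    refine ⟨fun x => ?_⟩
    have h4 : IsAlgebraic ℤ x :=
      (IsFractionRing.isAlgebraic_iff ℤ ℚ F).mpr (Algebra.IsAlgebraic.isAlgebraic x)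
    exact h4.extendScalars (RingHom.injective_int (algebraMap ℤ R))
  let f : F →ₐ[R] C := IsAlgClosed.lift
  refine ⟨f, fun X hX => ?_⟩
  have h5 := f.commutes ⟨a X, ⟨⟨X, hX⟩, rfl⟩⟩
  have h6 : algebraMap R C ⟨a X, ⟨⟨X, hX⟩, rfl⟩⟩ = ι (b X) := congrArg ι (hβ X hX)
  rw [← h6, ← h5]
  rfl

end EM
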