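import Pool.Agent.Helper82.EM.ENG
import Pool.Agent.Helper82.EM.EXH
import Pool.Agent.Helper21.WE.TOSH

/-!
# T33, rows HCO and LCO
-/

set_option autoImplicit false

open Matrix MT

namespace EM

/-- The common part of HCO and LCO. -/
theorem engine (hSIMC : ST_SIMC) (hBCH : ST_BCH) (hTRB : ST_TRB)
    (K₀ C F : Type) [Field K₀] [CharZero K₀] [Field C] [CharZero C] [IsAlgClosed C]
    [Algebra K₀ C] [Field F] (n w : ℕ) (h : Fin n → ℕ)
    (ψ : Matrix (Fin n) (Fin n) ℚ) (E : Submodule ℚ (Matrix (Fin n) (Fin n) ℚ))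
    (U : Submodule K₀ (Matrix (Fin n) (Fin n) K₀)) (e : Matrix (Fin n) (Fin n) ℚ → Fin n → F)
    (I : Set (F →+* C)) (hI : I.Nonempty)
    (hw : 0 < w) (hsum : 2 * ∑ j, h j = n * w) (hψ : ψ.det ≠ 0)
    (hsym : ψ.transpose = (-1 : ℚ) ^ w • ψ) (hbrk : Brk U)
    (hsim : ∀ A ∈ U, ∃ c : K₀, A.transpose * ψ.map (algebraMap ℚ K₀) +
      ψ.map (algebraMap ℚ K₀) * A = c • ψ.map (algebraMap ℚ K₀)) (hss : TrN U)
    (hCmt : Cmt U = spn K₀ E) (hadj : ∀ X ∈ E, adj ψ X ∈ E)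
    (hP : ∀ ι ∈ I, ∃ P : Matrix.GeneralLinearGroup (Fin n) C,
      (P : Matrix (Fin n) (Fin n) C) * Matrix.diagonal (fun j => (h j : C)) *
        ((P⁻¹ : Matrix.GeneralLinearGroup (Fin n) C) : Matrix (Fin n) (Fin n) C) ∈ spn C U ∧
      ∀ X ∈ E, X.map (algebraMap ℚ C) * (P : Matrix (Fin n) (Fin n) C) =
        (P : Matrix (Fin n) (Fin n) C) * Matrix.diagonal (fun j => ι (e X j)))
    (htr : ∀ k k', (∀ X ∈ E, e X k = 0 ↔ e X k' = 0) → ∀ ι ∈ I, ∃ ι' ∈ I, ∀ X ∈ E,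
      ι' (e X k') = ι (e X k))
    (hgood : ∀ k, ∃ k', (∀ X ∈ E, e X k = 0 ↔ e X k' = 0) ∧
      GoodAt w h (fun j => ∀ X ∈ E, e X j = e X k') (∀ X ∈ E, e (adj ψ X) k' = e X k') k') :
    HG.der U = spn K₀ (HG.der (LefE ψ E)) ∧ ((∀ X ∈ E, adj ψ X = X) → ∀ A, A ∈ U ↔
      (∃ c : K₀, A.transpose * ψ.map (algebraMap ℚ K₀) + ψ.map (algebraMap ℚ K₀) * A =
        c • ψ.map (algebraMap ℚ K₀)) ∧
      ∀ X ∈ E, A * X.map (algebraMap ℚ K₀) = X.map (algebraMap ℚ K₀) * A) := by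
  have hψC : (ψ.map (algebraMap ℚ K₀)).map (algebraMap K₀ C) = ψ.map (algebraMap ℚ C) :=
    map_tower ψ
  obtain ⟨b1, b2, b3, b4⟩ := hBCH K₀ C n (ψ.map (algebraMap ℚ K₀)) U
  have hCG : Cmt (spn C U) = spn C E := by rw [b1, hCmt, spn_spn]
  have hdet : (ψ.map (algebraMap ℚ C)).det ≠ 0 := by
    have h1 : (ψ.map (algebraMap ℚ C)).det = algebraMap ℚ C ψ.det :=
      ((algebraMap ℚ C).map_det ψ).symm
    rw [h1]
    exact (map_ne_zero _).mpr hψ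
  have hsymC : (ψ.map (algebraMap ℚ C)).transpose = (-1 : C) ^ w • ψ.map (algebraMap ℚ C) := by
    rw [← Matrix.transpose_map, hsym]
    ext i j
    simp
  have hsimC : ∀ A ∈ spn C U, ∃ c : C, A.transpose * ψ.map (algebraMap ℚ C) +
      ψ.map (algebraMap ℚ C) * A = c • ψ.map (algebraMap ℚ C) := by
    have h1 := spn_sim (C := C) U (ψ.map (algebraMap ℚ K₀)) hsim
    rw [hψC] at h1
    exact h1
  -- the frames
  let Fr : Set (Matrix.GeneralLinearGroup (Fin n) C) := {P | ∃ ι ∈ I,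
      (P : Matrix (Fin n) (Fin n) C) * Matrix.diagonal (fun j => (h j : C)) *
        ((P⁻¹ : Matrix.GeneralLinearGroup (Fin n) C) : Matrix (Fin n) (Fin n) C) ∈ spn C U ∧
      ∀ X ∈ E, X.map (algebraMap ℚ C) * (P : Matrix (Fin n) (Fin n) C) =
        (P : Matrix (Fin n) (Fin n) C) * Matrix.diagonal (fun j => ι (e X j))}
  have hne : Fr.Nonempty := by
    obtain ⟨ι, hι⟩ := hI
    obtain ⟨P, hP1⟩ := hP ι hι
    exact ⟨P, ι, hι, hP1⟩
  have hDg : ∀ P ∈ Fr, spn C E ≤ Dgs P := by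
    rintro P ⟨ι, -, -, hP2⟩
    exact spn_le _ _ fun X hX => ⟨_, (eig_diag (hP2 X hX)).1⟩
  have hcomm : ∀ X ∈ Cmt (spn C U), ∀ Y ∈ Cmt (spn C U), X * Y = Y * X := by
    intro X hX Y hY
    obtain ⟨P, hP1⟩ := hne
    rw [hCG] at hX hY
    exact Dgs_comm (hDg P hP1 hX) (hDg P hP1 hY)
  -- linear maps which agree on `E`
  have hlin : ∀ f g : Matrix (Fin n) (Fin n) C →ₗ[C] C,
      (∀ X ∈ E, f (X.map (algebraMap ℚ C)) = g (X.map (algebraMap ℚ C))) →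
      ∀ X ∈ Cmt (spn C U), f X = g X := by
    intro f g hfg X hX
    rw [hCG] at hX
    exact LinearMap.eqOn_span (f := f) (g := g) (by
      rintro _ ⟨Y, hY, rfl⟩
      exact hfg Y hY) hX
  have hlin' : ∀ f g : Matrix (Fin n) (Fin n) C →ₗ[C] Matrix (Fin n) (Fin n) C,
      (∀ X ∈ E, f (X.map (algebraMap ℚ C)) = g (X.map (algebraMap ℚ C))) →
      ∀ X ∈ Cmt (spn C U), f X = g X := by
    intro f g hfg X hX
    rw [hCG] at hX
    exact LinearMap.eqOn_span (f := f) (g := g) (by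
      rintro _ ⟨Y, hY, rfl⟩
      exact hfg Y hY) hX
  have hmemC : ∀ X ∈ E, X.map (algebraMap ℚ C) ∈ Cmt (spn C U) := fun X hX => by
    rw [hCG]; exact mem_spn E hX
  obtain ⟨s1, s2⟩ := hSIMC C n w h (ψ.map (algebraMap ℚ C)) (spn C U) Fr hw hsum hdet hsymC
    (spn_br U hbrk) hsimC (hTRB K₀ C n U hss) hcomm hne
    (by
      rintro P hPF
      refine ⟨?_, fun X hX => ?_⟩
      · obtain ⟨ι, -, hP1, -⟩ := hPF
        exact hP1
      · rw [hCG] at hX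
        exact hDg P hPF hX)
    (by
      rintro P ⟨ι, hι, hP1, hP2⟩ k
      obtain ⟨k', hk1, hk2⟩ := hgood k
      obtain ⟨ι', hι', hk3⟩ := htr k k' hk1 ι hι
      obtain ⟨P', hP'1, hP'2⟩ := hP ι' hι'
      refine ⟨P', ⟨ι', hι', hP'1, hP'2⟩, k', ?_, hk2.mono (fun j => ⟨fun hj => ?_, fun hj => ?_⟩)
        (fun hr => ?_)⟩
      · refine hlin (evlL P k) (evlL P' k') fun X hX => ?_
        show evl P _ k = evl P' _ k'
        rw [(eig_diag (hP2 X hX)).2, (eig_diag (hP'2 X hX)).2, hk3 X hX]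
      · refine hlin (evlL P' j) (evlL P' k') fun X hX => ?_
        show evl P' _ j = evl P' _ k'
        rw [(eig_diag (hP'2 X hX)).2, (eig_diag (hP'2 X hX)).2, hj X hX]
      · intro X hX
        have h1 : evl P' _ j = evl P' _ k' := hj _ (hmemC X hX)
        rw [(eig_diag (hP'2 X hX)).2, (eig_diag (hP'2 X hX)).2] at h1
        exact ι'.injective h1
      · refine hlin ((evlL P' k').comp (adjL (ψ.map (algebraMap ℚ C)))) (evlL P' k')
          fun X hX => ?_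
        show evl P' (adj _ _) k' = evl P' _ k'
        rw [adj_map (algebraMap ℚ C) hψ, (eig_diag (hP'2 X hX)).2,
          (eig_diag (hP'2 _ (hadj X hX))).2, hr X hX])
  -- descent
  have hL : Lef (ψ.map (algebraMap ℚ K₀)) U = spn K₀ (LefE ψ E) := Lef_spn ψ E U hCmt
  have hder : HG.der U = HG.der (Lef (ψ.map (algebraMap ℚ K₀)) U) := by
    obtain ⟨-, -, d3, d4⟩ := hBCH K₀ C n (ψ.map (algebraMap ℚ K₀)) (HG.der U)
    obtain ⟨-, -, f3, -⟩ := hBCH K₀ C n (ψ.map (algebraMap ℚ K₀)) (Lef (ψ.map (algebraMap ℚ K₀)) U)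
    obtain ⟨-, -, -, g4⟩ := hBCH K₀ C n (ψ.map (algebraMap ℚ K₀))
      (HG.der (Lef (ψ.map (algebraMap ℚ K₀)) U))
    rw [hψC] at b2
    rw [b2, b3, f3] at s1
    exact le_antisymm (d4 _ s1.le) (g4 _ s1.ge)
  refine ⟨?_, fun hsa A => ⟨fun hA => ⟨hsim A hA, fun X hX => ?_⟩, ?_⟩⟩
  · rw [hder, hL]
    exact (hBCH ℚ K₀ n ψ (LefE ψ E)).2.2.1
  · have h1 : X.map (algebraMap ℚ K₀) ∈ Cmt U := by rw [hCmt]; exact mem_spn E hX
    exact h1 A hA
  · rintro ⟨⟨c, hc⟩, hX⟩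
    apply of_mem_spn (C := C)
    refine (s2 ?_ _).mpr ⟨⟨algebraMap K₀ C c, ?_⟩, ?_⟩
    · refine hlin' (adjL (ψ.map (algebraMap ℚ C))) LinearMap.id fun X hX => ?_
      show adj _ _ = _
      rw [adj_map (algebraMap ℚ C) hψ, hsa X hX]
      rfl
    · rw [← hψC, ← Matrix.transpose_map, ← Matrix.map_mul, ← Matrix.map_mul,
        ← Matrix.map_add _ (fun x y => map_add (algebraMap K₀ C) x y), hc]
      ext i j
      simp
    · refine hlin' (LinearMap.mulLeft C (A.map (algebraMap K₀ C)))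
        (LinearMap.mulRight C (A.map (algebraMap K₀ C))) fun X hX' => ?_
      show A.map (algebraMap K₀ C) * _ = _ * A.map (algebraMap K₀ C)
      rw [← map_tower (K₀ := K₀), ← Matrix.map_mul, ← Matrix.map_mul, hX X hX']

/-- Row LCO. -/
theorem st_LCO (hSIMC : ST_SIMC) (hBCH : ST_BCH) (hTRB : ST_TRB) (hEXT : ST_EXT) : ST_LCO := by
  intro K₀ C F _ _ _ _ _ _ _ _ n w h ψ E U e hw hsum hψ hsym hbrk hsim hss hCmt h1 hm hadj hP hgood
  have hne : Nonempty (F →ₐ[ℚ] C) := ⟨IsAlgClosed.lift⟩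
  obtain ⟨ι₀⟩ := hne
  refine engine hSIMC hBCH hTRB K₀ C F n w h ψ E U e Set.univ ⟨ι₀, trivial⟩ hw hsum hψ hsym hbrk
    hsim hss hCmt hadj (fun ι _ => hP ι) (fun k k' hk ι _ => ?_) hgood
  obtain ⟨P, -, hP2⟩ := hP ι
  obtain ⟨ι', hι'⟩ := hEXT F C n E (fun X => e X k') (fun X => e X k) ι h1 hm
    (rhom_of_eig ι h1 hm hP2 k') (rhom_of_eig ι h1 hm hP2 k) (fun X hX => (hk X hX).symm)
  exact ⟨ι', trivial, hι'⟩

theorem map_ratHom {n : ℕ} (f : ℚ →+* ℚ) (A : Matrix (Fin n) (Fin n) ℚ) : A.map f = A := by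
  ext i j
  rw [Matrix.map_apply, eq_ratCast, Rat.cast_id]

theorem spn_rat {n : ℕ} (inst : Algebra ℚ ℚ) (V : Submodule ℚ (Matrix (Fin n) (Fin n) ℚ)) :
    spn ℚ V = V := by
  apply le_antisymm
  · exact spn_le _ _ fun A hA => by
      rw [map_ratHom]; exact hA
  · intro A hA
    have := mem_spn (C := ℚ) V hA
    rwa [map_ratHom] at this

/-- Row HCO. -/
theorem st_HCO (hSIMC : ST_SIMC) (hBCH : ST_BCH) (hTRB : ST_TRB) (hEXH : ST_EXH) : ST_HCO := by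
  intro n w h ψ U P x hw hsum hψ hsym hbrk hsim hss hP1 hP2 hgood
  have h1 : (1 : Matrix (Fin n) (Fin n) ℚ) ∈ Cmt U := fun A _ => by
    rw [Matrix.mul_one, Matrix.one_mul]
  have hm : ∀ X ∈ Cmt U, ∀ Y ∈ Cmt U, X * Y ∈ Cmt U := fun X hX Y hY A hA => by
    rw [← Matrix.mul_assoc, hX A hA, Matrix.mul_assoc, hY A hA, Matrix.mul_assoc]
  have hu : IsUnit ψ.det := isUnit_iff_ne_zero.mpr hψ
  have hadj : ∀ X ∈ Cmt U, adj ψ X ∈ Cmt U := by
    intro X hX A hA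
    obtain ⟨c, hc⟩ := hsim A hA
    have h2 : A = c • 1 - ψ⁻¹ * A.transpose * ψ := by
      have h3 : ψ⁻¹ * (A.transpose * ψ + ψ * A) = c • 1 := by
        rw [hc, Matrix.mul_smul, Matrix.nonsing_inv_mul ψ hu]
      rw [Matrix.mul_add, ← Matrix.mul_assoc, ← Matrix.mul_assoc, Matrix.nonsing_inv_mul ψ hu,
        Matrix.one_mul] at h3
      rw [← h3, add_sub_cancel_left]
    have h4 : ∀ Y Z : Matrix (Fin n) (Fin n) ℚ, (ψ⁻¹ * Y.transpose * ψ) *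
        (ψ⁻¹ * Z.transpose * ψ) = ψ⁻¹ * (Z * Y).transpose * ψ := by
      intro Y Z
      rw [Matrix.mul_assoc ψ⁻¹ Z.transpose ψ, Matrix.mul_assoc, ← Matrix.mul_assoc ψ,
        Matrix.mul_nonsing_inv ψ hu, Matrix.one_mul, Matrix.transpose_mul, Matrix.mul_assoc,
        Matrix.mul_assoc, Matrix.mul_assoc]
    have h5 : (ψ⁻¹ * A.transpose * ψ) * adj ψ X = adj ψ X * (ψ⁻¹ * A.transpose * ψ) := by
      unfold adj
      rw [h4, h4, hX A hA]
    rw [h2]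
    rw [Matrix.sub_mul, Matrix.mul_sub, Matrix.smul_mul, Matrix.mul_smul, Matrix.one_mul,
      Matrix.mul_one, h5]
  have hspn : ∀ τ : ℂ ≃+* ℂ, ∀ B ∈ spn ℂ U, B.map τ ∈ spn ℂ U := fun τ B hB => span_sig U τ B hB
  have hmapQ : ∀ (τ : ℂ ≃+* ℂ) (A : Matrix (Fin n) (Fin n) ℚ),
      (A.map (algebraMap ℚ ℂ)).map τ = A.map (algebraMap ℚ ℂ) := by
    intro τ A
    ext i j
    show τ ((A i j : ℚ) : ℂ) = ((A i j : ℚ) : ℂ)
    exact map_ratCast τ (A i j)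
  have hdg : ∀ (τ : ℂ ≃+* ℂ) (y : Fin n → ℂ), (Matrix.diagonal y).map τ =
      Matrix.diagonal (fun j => τ (y j)) := fun τ y =>
    Matrix.diagonal_map (map_zero τ)
  have main := engine hSIMC hBCH hTRB ℚ ℂ ℂ n w h ψ (Cmt U) U x
    (Set.range fun τ : ℂ ≃+* ℂ => (τ : ℂ →+* ℂ)) ⟨_, RingEquiv.refl ℂ, rfl⟩ hw hsum hψ hsym hbrk
    (by
      intro A hA
      rw [map_ratHom]
      exact hsim A hA) hss (spn_rat _ _).symm hadj
    (by
      rintro _ ⟨τ, rfl⟩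
      refine ⟨Matrix.GeneralLinearGroup.map (τ : ℂ →+* ℂ) P, ?_, fun X hX => ?_⟩
      · have h2 := hspn τ _ hP1
        rw [Matrix.map_mul, Matrix.map_mul, hdg] at h2
        simp only [map_natCast] at h2
        exact h2
      · have h2 := congrArg (fun M => M.map τ) (hP2 X hX)
        rw [Matrix.map_mul, Matrix.map_mul, hdg, hmapQ] at h2
        exact h2)
    (by
      rintro k k' hk _ ⟨τ, rfl⟩
      have hP2' : ∀ X ∈ Cmt U, X.map (algebraMap ℚ ℂ) * (P : Matrix (Fin n) (Fin n) ℂ) =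
          (P : Matrix (Fin n) (Fin n) ℂ) * Matrix.diagonal (fun j => RingHom.id ℂ (x X j)) := hP2
      have r1 := rhom_of_eig (RingHom.id ℂ) h1 hm hP2' k'
      have r2 := rhom_of_eig (RingHom.id ℂ) h1 hm hP2' k
      obtain ⟨τ', hτ'⟩ := hEXH n (Cmt U) (fun X => x X k') (fun X => τ (x X k)) h1 hm r1
        ⟨by rw [r2.one, map_one], fun X hX Y hY => by rw [r2.add X hX Y hY, map_add],
          fun X hX Y hY => by rw [r2.mul X hX Y hY, map_mul]⟩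
        (fun X hX => by rw [map_eq_zero_iff τ τ.injective]; exact (hk X hX).symm)
      exact ⟨_, ⟨τ', rfl⟩, hτ'⟩) hgood
  obtain ⟨m1, m2⟩ := main
  have hLef : LefE ψ (Cmt U) = Lef ψ U := rfl
  rw [spn_rat, hLef] at m1
  refine ⟨m1, fun hsa A => ?_⟩
  have := m2 hsa A
  simpa only [map_ratHom] using this

end EM
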