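import Pool.Agent.Helper21.EM.Stmts

/-!
# T33, row SIMC: from similitudes to isometries
-/

set_option autoImplicit false

open Matrix MT

namespace EM

section

variable {K : Type} [Field K] {n : ℕ}

/-- the infinitesimal isometries in `G + K` -/
def Lis (ψ : Matrix (Fin n) (Fin n) K) (G : Submodule K (Matrix (Fin n) (Fin n) K)) :
    Submodule K (Matrix (Fin n) (Fin n) K) where
  carrier := {A | A.transpose * ψ + ψ * A = 0 ∧ ∃ c : K, A + c • 1 ∈ G}
  add_mem' := by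
    rintro A B ⟨hA, c, hc⟩ ⟨hB, d, hd⟩
    refine ⟨?_, c + d, ?_⟩
    · rw [Matrix.transpose_add, Matrix.add_mul, Matrix.mul_add, add_add_add_comm, hA, hB, add_zero]
    · rw [add_smul, add_add_add_comm]
      exact G.add_mem hc hd
  zero_mem' := ⟨by rw [Matrix.transpose_zero, Matrix.zero_mul, Matrix.mul_zero, add_zero], 0, by
    rw [zero_smul, add_zero]; exact G.zero_mem⟩
  smul_mem' := by
    rintro c A ⟨hA, d, hd⟩
    refine ⟨?_, c * d, ?_⟩
    · rw [Matrix.transpose_smul, Matrix.smul_mul, Matrix.mul_smul, ← smul_add, hA, smul_zero]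
    · rw [← smul_smul, ← smul_add]
      exact G.smul_mem c hd

theorem skew_sub {ψ : Matrix (Fin n) (Fin n) K} [CharZero K] {A : Matrix (Fin n) (Fin n) K} {c : K}
    (h : A.transpose * ψ + ψ * A = c • ψ) :
    (A - (c / 2) • 1).transpose * ψ + ψ * (A - (c / 2) • 1) = 0 := by
  rw [Matrix.transpose_sub, Matrix.transpose_smul, Matrix.transpose_one, Matrix.sub_mul,
    Matrix.mul_sub, Matrix.smul_mul, Matrix.mul_smul, Matrix.one_mul, Matrix.mul_one,
    sub_add_sub_comm, h, ← add_smul, add_halves, sub_self]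

theorem sub_mem_Lis [CharZero K] {ψ : Matrix (Fin n) (Fin n) K}
    {G : Submodule K (Matrix (Fin n) (Fin n) K)} {A : Matrix (Fin n) (Fin n) K} (hA : A ∈ G) {c : K}
    (h : A.transpose * ψ + ψ * A = c • ψ) : A - (c / 2) • 1 ∈ Lis ψ G :=
  ⟨skew_sub h, c / 2, by rw [sub_add_cancel]; exact hA⟩

theorem skew_brk {ψ A B : Matrix (Fin n) (Fin n) K} (hA : A.transpose * ψ + ψ * A = 0)
    (hB : B.transpose * ψ + ψ * B = 0) :
    (A * B - B * A).transpose * ψ + ψ * (A * B - B * A) = 0 := by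
  have hA' : A.transpose * ψ = - (ψ * A) := eq_neg_of_add_eq_zero_left hA
  have hB' : B.transpose * ψ = - (ψ * B) := eq_neg_of_add_eq_zero_left hB
  rw [Matrix.transpose_sub, Matrix.transpose_mul, Matrix.transpose_mul, Matrix.sub_mul,
    Matrix.mul_assoc, Matrix.mul_assoc, hA', hB', Matrix.mul_neg, Matrix.mul_neg,
    ← Matrix.mul_assoc, ← Matrix.mul_assoc, hA', hB', Matrix.neg_mul, Matrix.neg_mul, neg_neg,
    neg_neg, Matrix.mul_sub, Matrix.mul_assoc, Matrix.mul_assoc]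
  abel

theorem brk_shift (A B : Matrix (Fin n) (Fin n) K) (c d : K) :
    (A + c • 1) * (B + d • 1) - (B + d • 1) * (A + c • 1) = A * B - B * A := by
  simp only [Matrix.add_mul, Matrix.mul_add, Matrix.smul_mul, Matrix.mul_smul, Matrix.one_mul,
    Matrix.mul_one]
  rw [smul_add, smul_add, smul_comm c d]
  abel

theorem brk_Lis {ψ : Matrix (Fin n) (Fin n) K} {G : Submodule K (Matrix (Fin n) (Fin n) K)}
    (hG : Brk G) : Brk (Lis ψ G) := by
  rintro A ⟨hA, c, hc⟩ B ⟨hB, d, hd⟩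
  refine ⟨skew_brk hA hB, 0, ?_⟩
  rw [zero_smul, add_zero, ← brk_shift A B c d]
  exact hG _ hc _ hd

section

variable [CharZero K] {ψ : Matrix (Fin n) (Fin n) K} {G : Submodule K (Matrix (Fin n) (Fin n) K)}
  (hs : ∀ A ∈ G, ∃ c : K, A.transpose * ψ + ψ * A = c • ψ)

include hs

theorem Cmt_Lis : Cmt (Lis ψ G) = Cmt G := by
  ext X
  constructor
  · intro hX A hA
    obtain ⟨c, hc⟩ := hs A hA
    have h1 := hX _ (sub_mem_Lis hA hc)
    rw [Matrix.sub_mul, Matrix.mul_sub, Matrix.smul_mul, Matrix.mul_smul, Matrix.one_mul,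
      Matrix.mul_one] at h1
    exact sub_left_injective h1
  · rintro hX A ⟨-, c, hc⟩
    have h1 := hX _ hc
    rw [Matrix.add_mul, Matrix.mul_add, Matrix.smul_mul, Matrix.mul_smul, Matrix.one_mul,
      Matrix.mul_one] at h1
    exact add_left_injective _ h1

theorem adjoin_Lis : Algebra.adjoin K (Lis ψ G : Set (Matrix (Fin n) (Fin n) K)) =
    Algebra.adjoin K (G : Set (Matrix (Fin n) (Fin n) K)) := by
  apply le_antisymm
  · refine Algebra.adjoin_le ?_
    rintro A ⟨-, c, hc⟩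
    have h1 : A = (A + c • 1) - c • 1 := by rw [add_sub_cancel_right]
    rw [h1]
    exact sub_mem (Algebra.subset_adjoin hc) (Subalgebra.smul_mem _ (one_mem _) c)
  · refine Algebra.adjoin_le ?_
    intro A hA
    obtain ⟨c, hc⟩ := hs A hA
    have h1 : A = (A - (c / 2) • 1) + (c / 2) • 1 := by rw [sub_add_cancel]
    rw [h1]
    exact add_mem (Algebra.subset_adjoin (sub_mem_Lis hA hc)) (Subalgebra.smul_mem _ (one_mem _) _)

theorem der_Lis : HG.der (Lis ψ G) = HG.der G := by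
  apply le_antisymm
  · refine Submodule.span_le.mpr ?_
    rintro X ⟨A, ⟨-, c, hc⟩, B, ⟨-, d, hd⟩, rfl⟩
    rw [← brk_shift A B c d]
    exact Submodule.subset_span ⟨_, hc, _, hd, rfl⟩
  · refine Submodule.span_le.mpr ?_
    rintro X ⟨A, hA, B, hB, rfl⟩
    obtain ⟨c, hc⟩ := hs A hA
    obtain ⟨d, hd⟩ := hs B hB
    have h1 := brk_shift (A - (c / 2) • 1) (B - (d / 2) • 1) (c / 2) (d / 2)
    rw [sub_add_cancel, sub_add_cancel] at h1
    rw [h1]
    exact Submodule.subset_span ⟨_, sub_mem_Lis hA hc, _, sub_mem_Lis hB hd, rfl⟩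

theorem Lef_Lis : Lef ψ (Lis ψ G) = Lef ψ G := by
  ext A
  show (_ ∧ ∀ X ∈ Cmt (Lis ψ G), _) ↔ (_ ∧ ∀ X ∈ Cmt G, _)
  rw [Cmt_Lis hs]

theorem Sam_Lis (P P' : Matrix.GeneralLinearGroup (Fin n) K) (j k : Fin n) :
    Sam (Lis ψ G) P j P' k ↔ Sam G P j P' k := by
  unfold Sam
  rw [Cmt_Lis hs]

end

theorem der_mono {U V : Submodule K (Matrix (Fin n) (Fin n) K)} (h : U ≤ V) :
    HG.der U ≤ HG.der V := by
  refine Submodule.span_mono ?_
  rintro X ⟨A, hA, B, hB, rfl⟩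
  exact ⟨A, h hA, B, h hB, rfl⟩

theorem Lis_le_Lef (ψ : Matrix (Fin n) (Fin n) K) (G : Submodule K (Matrix (Fin n) (Fin n) K)) :
    Lis ψ G ≤ Lef ψ (Lis ψ G) := fun A hA => ⟨hA.1, fun _ hX => hX A hA⟩

theorem GoodAt.mono {w : ℕ} {h : Fin n → ℕ} {s s' : Fin n → Prop} {r r' : Prop} {k : Fin n}
    (hg : GoodAt w h s r k) (hs : ∀ j, s j ↔ s' j) (hr : r → r') : GoodAt w h s' r' k := by
  rcases hg with h1 | ⟨q, f, hf, hf', h2⟩
  · exact Or.inl h1
  · refine Or.inr ⟨q, f, hf, fun j => (hf' j).trans (hs j), ?_⟩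
    rcases h2 with h2 | ⟨h2, h3⟩
    · exact Or.inl h2
    · exact Or.inr ⟨hr h2, h3⟩

/-- the multiplier is determined by the trace -/
theorem mul_of_trace [CharZero K] {ψ A : Matrix (Fin n) (Fin n) K} {c : K} (hψ : ψ.det ≠ 0)
    (h : A.transpose * ψ + ψ * A = c • ψ) : 2 * A.trace = n * c := by
  have hu : IsUnit ψ.det := isUnit_iff_ne_zero.mpr hψ
  have h1 : ψ⁻¹ * (A.transpose * ψ + ψ * A) = c • 1 := by
    rw [h, Matrix.mul_smul, Matrix.nonsing_inv_mul ψ hu]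
  have h2 := congrArg Matrix.trace h1
  rw [Matrix.mul_add, Matrix.trace_add, ← Matrix.mul_assoc, Matrix.trace_mul_comm,
    ← Matrix.mul_assoc, ← Matrix.mul_assoc, Matrix.mul_nonsing_inv ψ hu,
    Matrix.nonsing_inv_mul ψ hu, Matrix.one_mul, Matrix.one_mul, Matrix.trace_transpose,
    Matrix.trace_smul, Matrix.trace_one, Fintype.card_fin, smul_eq_mul] at h2
  rw [two_mul, h2, mul_comm]

/-- `dg P (2 h - w)` -/
theorem dg_eq (P : Matrix.GeneralLinearGroup (Fin n) K) (w : ℕ) (h : Fin n → ℕ) :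
    dg P (fun j => 2 * (h j : ℤ) - (w : ℤ)) = (2 : K) • ((P : Matrix (Fin n) (Fin n) K) *
      Matrix.diagonal (fun j => (h j : K)) *
        ((P⁻¹ : Matrix.GeneralLinearGroup (Fin n) K) : Matrix (Fin n) (Fin n) K)) - (w : K) • 1 := by
  have h1 : (Matrix.diagonal (fun j => ((2 * (h j : ℤ) - (w : ℤ) : ℤ) : K)) :
      Matrix (Fin n) (Fin n) K) = (2 : K) • Matrix.diagonal (fun j => (h j : K)) - (w : K) • 1 := by
    ext i j
    by_cases hij : i = j
    · subst hij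
      simp
    · simp [hij]
  have h2 : (P : Matrix (Fin n) (Fin n) K) *
      ((P⁻¹ : Matrix.GeneralLinearGroup (Fin n) K) : Matrix (Fin n) (Fin n) K) = 1 := by
    rw [← Matrix.GeneralLinearGroup.coe_mul, mul_inv_cancel]; rfl
  unfold dg
  rw [h1, Matrix.mul_sub, Matrix.sub_mul, Matrix.mul_smul, Matrix.smul_mul, Matrix.mul_smul,
    Matrix.mul_one, Matrix.smul_mul, h2]

end

/-- Row SIMC. -/
theorem st_SIMC (hCORE : ST_CORE) (hIDM : ST_IDM) (hPRM : ST_PRM) : ST_SIMC := by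
  intro K _ _ _ n w h ψ G Fr hw htr hψ hsym hbrk hs hss hcomm hne hFr hgood
  rcases Nat.eq_zero_or_pos n with rfl | hn
  · have : Subsingleton (Submodule K (Matrix (Fin 0) (Fin 0) K)) :=
      (Submodule.subsingleton_iff K).mpr inferInstance
    refine ⟨Subsingleton.elim _ _, fun _ A => ?_⟩
    have hA : A = 0 := Subsingleton.elim _ _
    subst hA
    exact ⟨fun _ => ⟨⟨0, Subsingleton.elim _ _⟩, fun _ _ => Subsingleton.elim _ _⟩,
      fun _ => G.zero_mem⟩
  have hn' : (n : K) ≠ 0 := Nat.cast_ne_zero.mpr hn.ne'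
  have hw' : (w : K) ≠ 0 := Nat.cast_ne_zero.mpr hw.ne'
  have hA0 : ∀ P ∈ Fr, dg P (fun j => 2 * (h j : ℤ) - (w : ℤ)) ∈ Lis ψ G ∧
      dg P (fun j => 2 * (h j : ℤ) - (w : ℤ)) + (w : K) • 1 ∈ G := by
    intro P hP
    obtain ⟨hP1, -⟩ := hFr P hP
    obtain ⟨c, hc⟩ := hs _ hP1
    have h1 := mul_of_trace hψ hc
    have h2 : ((P : Matrix (Fin n) (Fin n) K) * Matrix.diagonal (fun j => (h j : K)) *
        ((P⁻¹ : Matrix.GeneralLinearGroup (Fin n) K) : Matrix (Fin n) (Fin n) K)).trace =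
        ∑ j, (h j : K) := by
      have h3 : ((P⁻¹ : Matrix.GeneralLinearGroup (Fin n) K) : Matrix (Fin n) (Fin n) K) *
          (P : Matrix (Fin n) (Fin n) K) = 1 := by
        rw [← Matrix.GeneralLinearGroup.coe_mul, inv_mul_cancel]; rfl
      rw [Matrix.trace_mul_comm, ← Matrix.mul_assoc, h3, Matrix.one_mul, Matrix.trace_diagonal]
    have h4 : (2 : K) * ∑ j, (h j : K) = n * w := by exact_mod_cast congrArg (Nat.cast (R := K)) htr
    rw [h2, h4] at h1
    have h5 : c = w := (mul_left_cancel₀ hn' h1).symm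
    rw [h5] at hc
    have h6 : dg P (fun j => 2 * (h j : ℤ) - (w : ℤ)) + (w : K) • 1 ∈ G := by
      rw [dg_eq, sub_add_cancel]
      exact G.smul_mem _ hP1
    refine ⟨⟨?_, _, h6⟩, h6⟩
    rw [dg_eq]
    have h7 := skew_sub hc
    have h8 : (2 : K) • ((P : Matrix (Fin n) (Fin n) K) * Matrix.diagonal (fun j => (h j : K)) *
        ((P⁻¹ : Matrix.GeneralLinearGroup (Fin n) K) : Matrix (Fin n) (Fin n) K)) - (w : K) • 1 =
        (2 : K) • (((P : Matrix (Fin n) (Fin n) K) * Matrix.diagonal (fun j => (h j : K)) *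
        ((P⁻¹ : Matrix.GeneralLinearGroup (Fin n) K) : Matrix (Fin n) (Fin n) K)) -
          ((w : K) / 2) • 1) := by
      rw [smul_sub, smul_smul, mul_div_cancel₀ _ (two_ne_zero)]
    rw [h8, Matrix.transpose_smul, Matrix.smul_mul, Matrix.mul_smul, ← smul_add, h7, smul_zero]
  have hSss : Sss w ψ (Lis ψ G) := by
    refine ⟨hψ, hsym, brk_Lis hbrk, fun A hA => hA.1, ?_, ?_⟩
    · unfold TrN
      rw [adjoin_Lis hs]
      exact hss
    · rw [Cmt_Lis hs]
      exact hcomm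
  have hFrm : ∀ P ∈ Fr, Frm w h (Lis ψ G) P := by
    intro P hP
    refine ⟨(hA0 P hP).1, ?_⟩
    rw [Cmt_Lis hs]
    exact (hFr P hP).2
  have hreal : ∀ P ∈ Fr, ∀ k : Fin n, (∀ X ∈ Cmt G, evl P (adj ψ X) k = evl P X k) →
      adj ψ (idm (Lis ψ G) P k) = idm (Lis ψ G) P k := by
    intro P hP k hk
    obtain ⟨p1, -, p3, -, p5, p6⟩ := hPRM K n w h ψ (Lis ψ G) P hSss (hFrm P hP)
    obtain ⟨i1, -, i3, i4, -, i6, -⟩ := hIDM K n w h (Lis ψ G) P (hFrm P hP) k
    by_contra hc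
    have h1 := p3 _ (p6 _ (p1 k)) _ (p1 k) hc
    rw [i4 _ (p5 _ i1).1, hk _ (by rw [← Cmt_Lis hs]; exact i1), i6, one_smul] at h1
    exact i3 h1
  obtain ⟨c1, c2⟩ := hCORE K n w h ψ (Lis ψ G) Fr hSss hne hFrm (by
    intro P hP k
    obtain ⟨P', hP', k', h1, h2⟩ := hgood P hP k
    exact ⟨P', hP', k', (Sam_Lis hs P P' k k').mpr h1,
      h2.mono (fun j => (Sam_Lis hs P' P' j k').symm) (hreal P' hP' k')⟩)
  rw [Lef_Lis hs, der_Lis hs] at c1 c2
  have hle : Lis ψ G ≤ Lef ψ G := by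
    have := Lis_le_Lef ψ G
    rwa [Lef_Lis hs] at this
  refine ⟨le_antisymm ?_ c1, fun hadj A => ⟨fun hA => ⟨hs A hA, fun X hX => hX A hA⟩, ?_⟩⟩
  · rw [← der_Lis hs]
    exact der_mono hle
  · rintro ⟨⟨c, hc⟩, hX⟩
    have hdG : HG.der G ≤ G := Submodule.span_le.mpr (by
      rintro X ⟨A, hA, B, hB, rfl⟩
      exact hbrk A hA B hB)
    have h1 : Lef ψ G ≤ G := (c2 (by rw [Cmt_Lis hs]; exact hadj)).trans hdG
    obtain ⟨P, hP⟩ := hne
    have h2 : (w : K) • (1 : Matrix (Fin n) (Fin n) K) ∈ G := by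
      have h3 := G.sub_mem (hA0 P hP).2 (h1 (hle (hA0 P hP).1))
      rwa [add_sub_cancel_left] at h3
    have h4 : (1 : Matrix (Fin n) (Fin n) K) ∈ G := by
      have h5 := G.smul_mem (w : K)⁻¹ h2
      rwa [smul_smul, inv_mul_cancel₀ hw', one_smul] at h5
    have h6 : A - (c / 2) • 1 ∈ G := by
      refine h1 ⟨skew_sub hc, fun X hX' => ?_⟩
      rw [Matrix.sub_mul, Matrix.mul_sub, Matrix.smul_mul, Matrix.mul_smul, Matrix.one_mul,
        Matrix.mul_one, hX X hX']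
    have h7 := G.add_mem h6 (G.smul_mem (c / 2) h4)
    rwa [sub_add_cancel] at h7

end EM
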