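import Pool.Agent.Helper21.EM.Stmts4
import Pool.Agent.Helper82.AHS.ThmC

/-!
# T33, row PRA: Principle A
-/

set_option autoImplicit false

namespace EH

open Matrix Pool.Agent.Helper82.AHS Pool.Agent.Helper21.TH

/-- Row PRA. -/
theorem st_PRA : ST_PRA := by
  intro r S σ m n t hG hL
  -- two elements which agree on the absolute tensors agree on `t`
  have key : ∀ g h : GL (Fin r) ℂ, (∀ (a b : ℕ) (s : T r a b ℚ), S.V.Hodge s → S.AbsAt σ s →
      act g (up ℂ s) = act h (up ℂ s)) → act g (up ℂ t) = act h (up ℂ t) := by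
    intro g h hgh
    have h1 := hG (h⁻¹ * g) (fun a b s hs hs' => by
      rw [act_mul, hgh a b s hs hs', act_inv'])
    rw [act_mul] at h1
    have h2 := congrArg (act h) h1
    rwa [act_inv] at h2
  -- rationality
  have hrat : ∃ t' : T r m n ℚ, up ℂ t' = act (S.M σ) (up ℂ t) := by
    have hfix : ∀ τ : ℂ ≃+* ℂ, (act (S.M σ) (up ℂ t)).map τ = act (S.M σ) (up ℂ t) := by
      intro τ
      have h1 := act_map (τ : ℂ →+* ℂ) (S.M σ) (up ℂ t)
      rw [up_map] at h1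
      change (act (S.M σ) (up ℂ t)).map (τ : ℂ →+* ℂ) = _
      rw [h1]
      refine key _ _ fun a b s _ hs => ?_
      obtain ⟨s', -, h2, -⟩ := hs
      have h3 := act_map (τ : ℂ →+* ℂ) (S.M σ) (up ℂ s)
      rw [up_map, ← h2, up_map] at h3
      rw [← h3, h2]
    have h2 : ∀ i j, ∃ q : ℚ, (q : ℂ) = act (S.M σ) (up ℂ t) i j := fun i j =>
      rat_of_fixed _ fun τ => congrFun (congrFun (hfix τ) i) j
    choose t' ht' using h2
    exact ⟨of t', by ext i j; exact ht' i j⟩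
  obtain ⟨t', ht'⟩ := hrat
  refine ⟨t', ?_, ht', fun ℓ => ?_⟩
  · -- Hodge
    rw [(S.W σ).hodge_iff, ht']
    have e1 := gl_mul_inv (S.M σ)
    set y : Matrix (Fin r) (Fin r) ℂ := (((S.M σ)⁻¹ : GL (Fin r) ℂ) : Matrix (Fin r) (Fin r) ℂ) *
      (S.W σ).D * (S.M σ : Matrix (Fin r) (Fin r) ℂ) with hy
    have h1 : Kill y (up ℂ t) := by
      refine hL y fun a b s _ hs => ?_
      obtain ⟨s', h2, h3, -⟩ := hs
      rw [(S.W σ).hodge_iff, h3] at h2
      have h4 := kill_act (S.M σ)⁻¹ h2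
      rw [act_inv', inv_inv] at h4
      exact h4
    have h5 := kill_act (S.M σ) h1
    have h6 : (S.M σ : Matrix (Fin r) (Fin r) ℂ) * y *
        (((S.M σ)⁻¹ : GL (Fin r) ℂ) : Matrix (Fin r) (Fin r) ℂ) = (S.W σ).D := by
      rw [hy]
      calc (S.M σ : Matrix (Fin r) (Fin r) ℂ) *
            ((((S.M σ)⁻¹ : GL (Fin r) ℂ) : Matrix (Fin r) (Fin r) ℂ) * (S.W σ).D *
              (S.M σ : Matrix (Fin r) (Fin r) ℂ)) *
            (((S.M σ)⁻¹ : GL (Fin r) ℂ) : Matrix (Fin r) (Fin r) ℂ)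
          = ((S.M σ : Matrix (Fin r) (Fin r) ℂ) *
              (((S.M σ)⁻¹ : GL (Fin r) ℂ) : Matrix (Fin r) (Fin r) ℂ)) * (S.W σ).D *
            ((S.M σ : Matrix (Fin r) (Fin r) ℂ) *
              (((S.M σ)⁻¹ : GL (Fin r) ℂ) : Matrix (Fin r) (Fin r) ℂ)) := by
            simp only [Matrix.mul_assoc]
        _ = _ := by rw [e1, Matrix.one_mul, Matrix.mul_one]
    rwa [h6] at h5
  · have : Fact (ℓ : ℕ).Prime := ⟨ℓ.2⟩
    obtain ⟨ι⟩ := exists_emb ℓ
    have h1 := act_map ι (S.E σ ℓ) (up ℚ_[ℓ] t)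
    rw [up_map] at h1
    have h2 : act (Matrix.GeneralLinearGroup.map ι (S.E σ ℓ)) (up ℂ t) =
        act (S.M σ) (up ℂ t) := by
      refine key _ _ fun a b s _ hs => ?_
      obtain ⟨s', -, h2, h3⟩ := hs
      have h4 := act_map ι (S.E σ ℓ) (up ℚ_[ℓ] s)
      have h5 : up ℚ_[ℓ] s' = act (S.E σ ℓ) (up ℚ_[ℓ] s) := h3 ℓ
      rw [up_map, ← h5, up_map] at h4
      rw [← h4, h2]
    rw [h2, ← ht'] at h1
    have h3 : (up ℚ_[ℓ] t').map ι = up ℂ t' := up_map ι t'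
    change up ℚ_[ℓ] t' = act (S.E σ ℓ) (up ℚ_[ℓ] t)
    ext i j
    have h4 := congrFun (congrFun (h3.trans h1.symm) i) j
    simp only [Matrix.map_apply] at h4
    exact ι.injective h4

end EH
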