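import Pool.Agent.Helper21.EM.Stmts4
import Pool.Agent.Helper82.AHS.Nd
import Pool.Agent.Helper2.D2.KPL
import Pool.Agent.Helper53.D2.SYM
import Pool.Agent.Helper21.D2.GNRH

/-!
# T33, row HLI: the Lie algebra of the Mumford-Tate group with the scalars
-/

set_option autoImplicit false

namespace EH.H82

open Matrix Pool.Agent.Helper82.AHS Pool.Agent.Helper21.TH
open scoped MatrixOrder ComplexOrder

variable {r : ℕ} {V : HS r} {Q : Matrix (Fin r) (Fin r) ℚ}

/-- The positivity of the adjunction: the argument of `AHS.key`. -/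
theorem key_pos (hQ : V.Pol Q) {Qi : Matrix (Fin r) (Fin r) ℚ} (hQi : Q * Qi = 1)
    {a : Matrix (Fin r) (Fin r) ℂ} (htr : trace (a * (Qi.map (algebraMap ℚ ℂ) *
      ((V.C * a * V.C').map (starRingEnd ℂ))ᵀ * Q.map (algebraMap ℚ ℂ))) = 0) : a = 0 := by
  have hQi2 : Qi * Q = 1 := mul_eq_one_comm.mp hQi
  have hM := MM_posDef hQ
  set P := (V.P : Matrix (Fin r) (Fin r) ℂ) with hP
  set P' := ((V.P⁻¹ : GL (Fin r) ℂ) : Matrix (Fin r) (Fin r) ℂ) with hP'
  have e1 : P * P' = 1 := gl_mul_inv V.P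
  have e2 : P' * P = 1 := gl_inv_mul V.P
  set J : Matrix (Fin r) (Fin r) ℂ := diagonal (fun i => Complex.I ^ (V.p i - V.q i)) with hJ
  set J' : Matrix (Fin r) (Fin r) ℂ := diagonal (fun i => Complex.I ^ (V.q i - V.p i)) with hJ'
  have j1 : J * J' = 1 := by
    rw [hJ, hJ', diagonal_mul_diagonal]; simp only [I_zpow_mul]; exact diagonal_one
  have j2 : J' * J = 1 := by
    rw [hJ, hJ', diagonal_mul_diagonal]; simp only [I_zpow_mul]; exact diagonal_one
  have cJ : J.map (starRingEnd ℂ) = J' := by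
    rw [hJ, hJ', Matrix.diagonal_map (map_zero _)]
    congr 1
    funext i
    rw [conj_I_zpow, neg_sub]
  have cJ' : J'.map (starRingEnd ℂ) = J := by
    rw [hJ, hJ', Matrix.diagonal_map (map_zero _)]
    congr 1
    funext i
    rw [conj_I_zpow, neg_sub]
  set QC := Q.map (algebraMap ℚ ℂ) with hQC
  set QiC := Qi.map (algebraMap ℚ ℂ) with hQiC
  have q1 : QiC * QC = 1 := map_inv_aux hQi2
  set Pb := P.map (starRingEnd ℂ) with hPb
  set Pb' := P'.map (starRingEnd ℂ) with hPb'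
  have p1 : Pb * Pb' = 1 := by
    rw [hPb, hPb', ← Matrix.map_mul, e1, Matrix.map_one _ (map_zero _) (map_one _)]
  have p2 : Pb' * Pb = 1 := by
    rw [hPb, hPb', ← Matrix.map_mul, e2, Matrix.map_one _ (map_zero _) (map_one _)]
  have p1t : Pb'ᵀ * Pbᵀ = 1 := by rw [← Matrix.transpose_mul, p1, Matrix.transpose_one]
  have p2t : Pbᵀ * Pb'ᵀ = 1 := by rw [← Matrix.transpose_mul, p2, Matrix.transpose_one]
  set M := MM V Q with hMM
  -- M = J' Pbᵀ QC P
  have hM1 : M = J' * (Pbᵀ * QC * P) := by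
    have h1 : M = Mᴴ := hM.isHermitian.eq.symm
    rw [h1, hMM]
    unfold MM
    have h2 : ∀ x : Matrix (Fin r) (Fin r) ℂ, (xᵀ)ᴴ = x.map (starRingEnd ℂ) := by
      intro x; ext i j; simp [Matrix.conjTranspose_apply]
    rw [h2, Matrix.map_mul]
    change J.map (starRingEnd ℂ) * (RR V Q).map (starRingEnd ℂ) = _
    rw [cJ]
    congr 1
    unfold RR
    rw [Matrix.map_mul, Matrix.map_mul, map_conj]
    congr 1
    ext i j; simp [hP]
  obtain ⟨M', hM'⟩ : ∃ M' : Matrix (Fin r) (Fin r) ℂ, M * M' = 1 := by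
    obtain ⟨u, hu⟩ := hM.isUnit
    exact ⟨((u⁻¹ : (Matrix (Fin r) (Fin r) ℂ)ˣ) : Matrix (Fin r) (Fin r) ℂ), by
      rw [← hu]; exact Units.mul_inv u⟩
  have hM'2 : M' * M = 1 := mul_eq_one_comm.mp hM'
  have hQP : QC * P = Pb'ᵀ * J * M := by
    rw [hM1]
    calc QC * P = Pb'ᵀ * Pbᵀ * (QC * P) := by rw [p1t, Matrix.one_mul]
      _ = Pb'ᵀ * (J * J') * (Pbᵀ * (QC * P)) := by
          rw [j1, Matrix.mul_one]; simp only [Matrix.mul_assoc]
      _ = _ := by simp only [Matrix.mul_assoc]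
  have hW : QC * P * M' = Pb'ᵀ * J := by
    rw [hQP, Matrix.mul_assoc, hM', Matrix.mul_one]
  set ã := P' * a * P with hã
  have haP : a = P * ã * P' := by
    rw [hã]
    calc a = (P * P') * a * (P * P') := by rw [e1, Matrix.one_mul, Matrix.mul_one]
      _ = _ := by simp only [Matrix.mul_assoc]
  have hCa : V.C * a * V.C' = P * (J * ã * J') * P' := by
    unfold HS.C HS.C'
    change (P * J * P') * a * (P * J' * P') = _
    rw [hã]
    simp only [Matrix.mul_assoc]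
  have hCa2 : ((V.C * a * V.C').map (starRingEnd ℂ))ᵀ = Pb'ᵀ * (J * ãᴴ * J') * Pbᵀ := by
    rw [hCa, Matrix.map_mul, Matrix.map_mul, Matrix.map_mul, Matrix.map_mul, cJ, cJ',
      Matrix.transpose_mul, Matrix.transpose_mul, Matrix.transpose_mul, Matrix.transpose_mul]
    have h1 : (ã.map (starRingEnd ℂ))ᵀ = ãᴴ := by
      ext i j; simp [Matrix.conjTranspose_apply]
    have h2 : Jᵀ = J := diagonal_transpose _
    have h3 : J'ᵀ = J' := diagonal_transpose _
    rw [h1, h2, h3]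
    simp only [Matrix.mul_assoc]
    rfl
  set b := QiC * ((V.C * a * V.C').map (starRingEnd ℂ))ᵀ * QC with hbdef
  have hbP : b * P * M' = P * (M' * ãᴴ) := by
    have h1 : P = QiC * (Pb'ᵀ * J * M) := by
      rw [← hQP, ← Matrix.mul_assoc, q1, Matrix.one_mul]
    calc b * P * M' = QiC * ((V.C * a * V.C').map (starRingEnd ℂ))ᵀ * (QC * P * M') := by
          rw [hbdef]; simp only [Matrix.mul_assoc]
      _ = QiC * (Pb'ᵀ * (J * ãᴴ * J') * Pbᵀ) * (Pb'ᵀ * J) := by rw [hW, hCa2]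
      _ = QiC * Pb'ᵀ * J * ãᴴ * J' * (Pbᵀ * Pb'ᵀ) * J := by simp only [Matrix.mul_assoc]
      _ = QiC * Pb'ᵀ * J * ãᴴ * (J' * J) := by
          rw [p2t, Matrix.mul_one]; simp only [Matrix.mul_assoc]
      _ = QiC * Pb'ᵀ * J * ãᴴ := by rw [j2, Matrix.mul_one]
      _ = QiC * Pb'ᵀ * J * (M * M') * ãᴴ := by rw [hM', Matrix.mul_one]
      _ = QiC * (Pb'ᵀ * J * M) * (M' * ãᴴ) := by simp only [Matrix.mul_assoc]
      _ = P * (M' * ãᴴ) := by rw [← h1]
  have hbP2 : b = P * (M' * ãᴴ * M) * P' := by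
    calc b = b * P * (M' * M) * P' := by
          rw [hM'2, Matrix.mul_one, Matrix.mul_assoc, e1, Matrix.mul_one]
      _ = (b * P * M') * M * P' := by simp only [Matrix.mul_assoc]
      _ = _ := by rw [hbP]; simp only [Matrix.mul_assoc]
  have h2 : trace (ã * (M' * ãᴴ * M)) = 0 := by
    have h4 : a * b = P * (ã * (M' * ãᴴ * M)) * P' := by
      rw [hbP2]
      conv_lhs => rw [haP]
      exact conj_mul e2
    rw [h4, Matrix.trace_mul_comm, ← Matrix.mul_assoc, e2, Matrix.one_mul] at htr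
    exact htr
  have h3 := trace_pos hM hM' h2
  rw [haP, h3, Matrix.mul_zero, Matrix.zero_mul]


theorem mem_aM {X : Matrix (Fin r) (Fin r) ℚ} :
    X ∈ aM V ↔ ∃ x ∈ Ann ℚ V.HT, ∃ c : ℚ, X = x + c • 1 := by
  unfold aM
  rw [Submodule.mem_sup]
  constructor
  · rintro ⟨x, hx, y, hy, rfl⟩
    obtain ⟨c, rfl⟩ := Submodule.mem_span_singleton.mp hy
    exact ⟨x, hx, c, rfl⟩
  · rintro ⟨x, hx, c, rfl⟩
    exact ⟨x, hx, c • 1, Submodule.mem_span_singleton.mpr ⟨c, rfl⟩, rfl⟩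

theorem one_mem_aM : (1 : Matrix (Fin r) (Fin r) ℚ) ∈ aM V :=
  mem_aM.mpr ⟨0, Submodule.zero_mem _, 1, by rw [one_smul, zero_add]⟩

theorem ann_le_aM : Ann ℚ V.HT ≤ aM V := le_sup_left

/-- the anti-automorphism `x ↦ Q⁻¹ (conj (C x C⁻¹))ᵀ Q` -/
noncomputable def aut (V : HS r) (Q Qi : Matrix (Fin r) (Fin r) ℚ)
    (x : Matrix (Fin r) (Fin r) ℂ) : Matrix (Fin r) (Fin r) ℂ :=
  Qi.map (algebraMap ℚ ℂ) * ((V.C * x * V.C').map (starRingEnd ℂ))ᵀ * Q.map (algebraMap ℚ ℂ)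

theorem aut_add (Qi : Matrix (Fin r) (Fin r) ℚ) (x y : Matrix (Fin r) (Fin r) ℂ) :
    aut V Q Qi (x + y) = aut V Q Qi x + aut V Q Qi y := by
  unfold aut
  rw [Matrix.mul_add, Matrix.add_mul, Matrix.map_add _ (fun a b => map_add (starRingEnd ℂ) a b),
    Matrix.transpose_add, Matrix.mul_add, Matrix.add_mul]

theorem aut_smul (Qi : Matrix (Fin r) (Fin r) ℚ) (c : ℂ) (x : Matrix (Fin r) (Fin r) ℂ) :
    aut V Q Qi (c • x) = (starRingEnd ℂ) c • aut V Q Qi x := by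
  have h : ∀ M : Matrix (Fin r) (Fin r) ℂ, (c • M).map (starRingEnd ℂ) =
      (starRingEnd ℂ) c • M.map (starRingEnd ℂ) := by
    intro M
    ext i j
    simp
  unfold aut
  rw [Matrix.mul_smul, Matrix.smul_mul, h, Matrix.transpose_smul, Matrix.mul_smul,
    Matrix.smul_mul]

theorem aut_one {Qi : Matrix (Fin r) (Fin r) ℚ} (hQi : Qi * Q = 1) : aut V Q Qi 1 = 1 := by
  unfold aut
  rw [Matrix.mul_one, V.C_mul_C', Matrix.map_one _ (map_zero _) (map_one _),
    Matrix.transpose_one, Matrix.mul_one]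
  exact map_inv_aux hQi

theorem aut_mul {Qi : Matrix (Fin r) (Fin r) ℚ} (hQi : Q * Qi = 1)
    (x y : Matrix (Fin r) (Fin r) ℂ) :
    aut V Q Qi (x * y) = aut V Q Qi y * aut V Q Qi x := by
  have h1 : V.C * (x * y) * V.C' = (V.C * x * V.C') * (V.C * y * V.C') :=
    (Pool.Agent.Helper82.AHS.conj_mul V.C'_mul_C).symm
  have h2 : Q.map (algebraMap ℚ ℂ) * Qi.map (algebraMap ℚ ℂ) = 1 := map_inv_aux hQi
  unfold aut
  rw [h1, Matrix.map_mul, Matrix.transpose_mul]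
  exact (Pool.Agent.Helper82.AHS.conj_mul h2).symm

/-- the complex algebra generated by the annihilator is stable under `aut` -/
theorem aut_mem (hQ : V.Pol Q) {Qi : Matrix (Fin r) (Fin r) ℚ} (hQi : Q * Qi = 1)
    {x : Matrix (Fin r) (Fin r) ℂ}
    (hx : x ∈ Algebra.adjoin ℂ (Ann ℂ V.HT : Set (Matrix (Fin r) (Fin r) ℂ))) :
    aut V Q Qi x ∈ Algebra.adjoin ℂ (Ann ℂ V.HT : Set (Matrix (Fin r) (Fin r) ℂ)) := by
  have hQi2 : Qi * Q = 1 := mul_eq_one_comm.mp hQi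
  induction hx using Algebra.adjoin_induction with
  | mem x hx =>
    exact Algebra.subset_adjoin (adj_mem (K := ℂ) hQ hQi (Ann_conj (V.C_ann hx)))
  | algebraMap c =>
    rw [Algebra.algebraMap_eq_smul_one, aut_smul, aut_one hQi2]
    exact Subalgebra.smul_mem _ (one_mem _) _
  | add x y _ _ hx hy =>
    rw [aut_add]
    exact add_mem hx hy
  | mul x y _ _ hx hy =>
    rw [aut_mul hQi]
    exact mul_mem hy hx

/-- the complex span of the rational algebra -/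
noncomputable def Spa (V : HS r) : Submodule ℂ (Matrix (Fin r) (Fin r) ℂ) :=
  Submodule.span ℂ ((fun u : Matrix (Fin r) (Fin r) ℚ => u.map (algebraMap ℚ ℂ)) ''
    (Algebra.adjoin ℚ (aM V : Set (Matrix (Fin r) (Fin r) ℚ)) :
      Set (Matrix (Fin r) (Fin r) ℚ)))

theorem Spa_mul {x y : Matrix (Fin r) (Fin r) ℂ} (hx : x ∈ Spa V) (hy : y ∈ Spa V) :
    x * y ∈ Spa V := by
  have h1 : ∀ u ∈ Algebra.adjoin ℚ (aM V : Set (Matrix (Fin r) (Fin r) ℚ)), ∀ y ∈ Spa V,
      u.map (algebraMap ℚ ℂ) * y ∈ Spa V := by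
    intro u hu y hy
    refine Submodule.span_induction
      (p := fun y _ => u.map (algebraMap ℚ ℂ) * y ∈ Spa V) ?_ ?_ ?_ ?_ hy
    · rintro _ ⟨v, hv, rfl⟩
      refine Submodule.subset_span ⟨u * v, mul_mem hu hv, ?_⟩
      simp only [Matrix.map_mul]
    · rw [Matrix.mul_zero]; exact Submodule.zero_mem _
    · intro a b _ _ ha hb; rw [Matrix.mul_add]; exact Submodule.add_mem _ ha hb
    · intro c a _ ha; rw [Matrix.mul_smul]; exact Submodule.smul_mem _ _ ha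
  refine Submodule.span_induction (p := fun x _ => x * y ∈ Spa V) ?_ ?_ ?_ ?_ hx
  · rintro _ ⟨u, hu, rfl⟩
    exact h1 u hu y hy
  · rw [Matrix.zero_mul]; exact Submodule.zero_mem _
  · intro a b _ _ ha hb; rw [Matrix.add_mul]; exact Submodule.add_mem _ ha hb
  · intro c a _ ha; rw [Matrix.smul_mul]; exact Submodule.smul_mem _ _ ha

theorem Spa_one : (1 : Matrix (Fin r) (Fin r) ℂ) ∈ Spa V :=
  Submodule.subset_span ⟨1, one_mem _, by
    simp only
    rw [Matrix.map_one _ (map_zero _) (map_one _)]⟩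

theorem adjoin_le_Spa {x : Matrix (Fin r) (Fin r) ℂ}
    (hx : x ∈ Algebra.adjoin ℂ (Ann ℂ V.HT : Set (Matrix (Fin r) (Fin r) ℂ))) : x ∈ Spa V := by
  induction hx using Algebra.adjoin_induction with
  | mem x hx =>
    have h1 : x ∈ Submodule.span ℂ ((fun u : Matrix (Fin r) (Fin r) ℚ =>
      u.map (algebraMap ℚ ℂ)) '' (Ann ℚ V.HT : Set (Matrix (Fin r) (Fin r) ℚ))) :=
      ann_span ℂ V.HT hx
    refine Submodule.span_mono ?_ h1
    rintro _ ⟨u, hu, rfl⟩
    exact ⟨u, Algebra.subset_adjoin (ann_le_aM hu), rfl⟩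
  | algebraMap c =>
    rw [Algebra.algebraMap_eq_smul_one]
    exact Submodule.smul_mem _ _ Spa_one
  | add x y _ _ hx hy => exact Submodule.add_mem _ hx hy
  | mul x y _ _ hx hy => exact Spa_mul hx hy

theorem map_adjoin {A : Matrix (Fin r) (Fin r) ℚ}
    (hA : A ∈ Algebra.adjoin ℚ (aM V : Set (Matrix (Fin r) (Fin r) ℚ))) :
    A.map (algebraMap ℚ ℂ) ∈ Algebra.adjoin ℂ (Ann ℂ V.HT : Set (Matrix (Fin r) (Fin r) ℂ)) := by
  have hs : ∀ c : ℚ, (c • (1 : Matrix (Fin r) (Fin r) ℚ)).map (algebraMap ℚ ℂ) =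
      (algebraMap ℚ ℂ c) • 1 := by
    intro c
    ext i j
    by_cases hij : i = j
    · subst hij; simp
    · simp [hij]
  induction hA using Algebra.adjoin_induction with
  | mem x hx =>
    obtain ⟨y, hy, c, rfl⟩ := mem_aM.mp hx
    rw [Matrix.map_add _ (fun a b => map_add (algebraMap ℚ ℂ) a b), hs]
    exact add_mem (Algebra.subset_adjoin (ann_of_span ℂ _ hy))
      (Subalgebra.smul_mem _ (one_mem _) _)
  | algebraMap c =>
    rw [Algebra.algebraMap_eq_smul_one, hs]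
    exact Subalgebra.smul_mem _ (one_mem _) _
  | add x y _ _ hx hy =>
    rw [Matrix.map_add _ (fun a b => map_add (algebraMap ℚ ℂ) a b)]
    exact add_mem hx hy
  | mul x y _ _ hx hy =>
    rw [Matrix.map_mul]
    exact mul_mem hx hy

theorem trN_aM (hQ : V.Pol Q) : EM.TrN (aM V) := by
  intro A hA h0
  obtain ⟨Qi, hQi⟩ := exists_Qi hQ
  have h1 : aut V Q Qi (A.map (algebraMap ℚ ℂ)) ∈ Spa V :=
    adjoin_le_Spa (aut_mem hQ hQi (map_adjoin hA))
  have h2 : ∀ y ∈ Spa V, trace (A.map (algebraMap ℚ ℂ) * y) = 0 := by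
    intro y hy
    refine Submodule.span_induction
      (p := fun y _ => trace (A.map (algebraMap ℚ ℂ) * y) = 0) ?_ ?_ ?_ ?_ hy
    · rintro _ ⟨u, hu, rfl⟩
      change trace (A.map (algebraMap ℚ ℂ) * u.map (algebraMap ℚ ℂ)) = 0
      rw [← Matrix.map_mul, Pool.Agent.Helper82.AHS.trace_map, h0 u hu, map_zero]
    · simp
    · intro x y _ _ hx hy; rw [Matrix.mul_add, trace_add, hx, hy, add_zero]
    · intro c x _ hx; rw [Matrix.mul_smul, trace_smul, hx, smul_zero]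
  have h3 := key_pos hQ hQi (h2 _ h1)
  apply map_inj
  rw [h3, Matrix.map_zero _ (map_zero _)]

end EH.H82

namespace EH

open Matrix Pool.Agent.Helper82.AHS Pool.Agent.Helper21.TH

/-- Row HLI. -/
theorem st_HLI : ST_HLI := by
  intro r V w Q hpure hQ
  obtain ⟨hdet, -, -, hrel⟩ := st_SYM r V w Q hpure hQ
  have hpol : V.Hodge (polT Q) := ((st_KPL r ℂ Q V.D hdet).1).mpr ⟨(w : ℂ), hrel⟩
  have hlie : ∀ x ∈ Ann ℚ V.HT, ∃ c : ℚ, xᵀ * Q + Q * x = c • Q := by
    intro x hx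
    have h1 := hx 2 2 (polT Q) hpol
    obtain ⟨c, hc⟩ := ((st_KPL r ℚ Q x hdet).1).mp h1
    rw [map_rat] at hc
    exact ⟨c, hc⟩
  refine ⟨?_, ?_, H82.trN_aM hQ, ?_, H82.one_mem_aM, ?_⟩
  · intro X hX Y hY
    obtain ⟨x, hx, c, rfl⟩ := H82.mem_aM.mp hX
    obtain ⟨y, hy, d, rfl⟩ := H82.mem_aM.mp hY
    rw [H82.mem_aM]
    refine ⟨x * y - y * x, Ann_lie hx hy, 0, ?_⟩
    simp only [Matrix.add_mul, Matrix.mul_add, Matrix.smul_mul, Matrix.mul_smul, Matrix.one_mul,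
      Matrix.mul_one, zero_smul, add_zero, smul_add, smul_smul]
    rw [mul_comm d c]
    abel
  · intro X hX
    obtain ⟨x, hx, c, rfl⟩ := H82.mem_aM.mp hX
    obtain ⟨d, hd⟩ := hlie x hx
    refine ⟨d + 2 * c, ?_⟩
    rw [Matrix.transpose_add, Matrix.transpose_smul, Matrix.transpose_one, Matrix.add_mul,
      Matrix.mul_add, Matrix.smul_mul, Matrix.mul_smul, Matrix.one_mul, Matrix.mul_one, add_smul,
      ← hd, mul_smul, two_smul]
    abel
  · intro X
    constructor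
    · intro hX
      exact comm_D fun u hu => (hX u (H82.ann_le_aM hu)).symm
    · intro hX A hA
      obtain ⟨a, ha, c, rfl⟩ := H82.mem_aM.mp hA
      have h1 : V.Hodge (t11 X) := by
        rw [V.hodge_iff, up_t11, kill_t11]
        exact hX.symm
      have h2 := ha 1 1 _ h1
      rw [up_rat, kill_t11] at h2
      rw [Matrix.add_mul, Matrix.mul_add, h2, Matrix.smul_mul, Matrix.mul_smul, Matrix.one_mul,
        Matrix.mul_one]
  · have h1 := ann_span ℂ V.HT V.D_mem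
    refine Submodule.span_mono ?_ h1
    rintro _ ⟨u, hu, rfl⟩
    exact ⟨u, H82.ann_le_aM hu, rfl⟩

end EH
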