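import Pool.Agent.Helper82.EM.SIMC
import Pool.Agent.Helper21.EM.Stmts2

/-!
# T33, rows HCO and LCO: the common part
-/

set_option autoImplicit false

open Matrix MT

namespace EM

section base

variable {K : Type} [Field K] {n : ℕ}

/-- A matrix over an extension all of whose coordinate matrices are in `V` is in the span. -/
theorem mem_spn_of_coord {C : Type} [Field C] [Algebra K C]
    (V : Submodule K (Matrix (Fin n) (Fin n) K)) (A : Matrix (Fin n) (Fin n) C)
    (h : ∀ π : C →ₗ[K] K, A.map π ∈ V) : A ∈ spn C V := by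
  classical
  let b := Module.Basis.ofVectorSpace K C
  let S : Finset (Module.Basis.ofVectorSpaceIndex K C) :=
    Finset.univ.biUnion fun p : Fin n × Fin n => (b.repr (A p.1 p.2)).support
  have hA : A = ∑ k ∈ S, (b k) • (A.map (b.coord k)).map (algebraMap K C) := by
    ext i j
    have h1 : A i j = ∑ k ∈ S, b.repr (A i j) k • b k := by
      conv_lhs => rw [← b.linearCombination_repr (A i j), Finsupp.linearCombination_apply]
      refine Finsupp.sum_of_support_subset _ ?_ _ (fun k _ => zero_smul K (b k))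
      exact Finset.subset_biUnion_of_mem (u := fun p : Fin n × Fin n => (b.repr (A p.1 p.2)).support)
        (Finset.mem_univ (i, j))
    conv_lhs => rw [h1]
    rw [Matrix.sum_apply]
    refine Finset.sum_congr rfl fun k _ => ?_
    rw [Matrix.smul_apply, Matrix.map_apply, Matrix.map_apply, Algebra.smul_def, smul_eq_mul,
      mul_comm]
    rfl
  rw [hA]
  exact Submodule.sum_mem _ fun k _ => Submodule.smul_mem _ _ (mem_spn V (h _))

theorem spn_mono {C : Type} [Field C] [Algebra K C] {V W : Submodule K (Matrix (Fin n) (Fin n) K)}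
    (h : V ≤ W) : spn C V ≤ spn C W := by
  refine Submodule.span_mono ?_
  rintro _ ⟨A, hA, rfl⟩
  exact ⟨A, h hA, rfl⟩

/-- the matrices `P diag(x) P⁻¹` -/
def Dgs (P : Matrix.GeneralLinearGroup (Fin n) K) : Submodule K (Matrix (Fin n) (Fin n) K) where
  carrier := {X | ∃ x : Fin n → K, X = (P : Matrix (Fin n) (Fin n) K) * Matrix.diagonal x *
    ((P⁻¹ : Matrix.GeneralLinearGroup (Fin n) K) : Matrix (Fin n) (Fin n) K)}
  add_mem' := by
    rintro _ _ ⟨x, rfl⟩ ⟨y, rfl⟩
    refine ⟨fun j => x j + y j, ?_⟩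
    rw [← Matrix.add_mul, ← Matrix.mul_add, Matrix.diagonal_add]
  zero_mem' := ⟨fun _ => 0, by rw [Matrix.diagonal_zero, Matrix.mul_zero, Matrix.zero_mul]⟩
  smul_mem' := by
    rintro c _ ⟨x, rfl⟩
    refine ⟨fun j => c * x j, ?_⟩
    have : (Matrix.diagonal fun j => c * x j) = c • Matrix.diagonal x := by
      ext i j
      by_cases hij : i = j
      · subst hij; simp
      · simp [hij]
    rw [this, Matrix.mul_smul, Matrix.smul_mul]

theorem gl_mul_inv (P : Matrix.GeneralLinearGroup (Fin n) K) : (P : Matrix (Fin n) (Fin n) K) *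
    ((P⁻¹ : Matrix.GeneralLinearGroup (Fin n) K) : Matrix (Fin n) (Fin n) K) = 1 := by
  rw [← Matrix.GeneralLinearGroup.coe_mul, mul_inv_cancel]; rfl

theorem gl_inv_mul (P : Matrix.GeneralLinearGroup (Fin n) K) :
    ((P⁻¹ : Matrix.GeneralLinearGroup (Fin n) K) : Matrix (Fin n) (Fin n) K) *
    (P : Matrix (Fin n) (Fin n) K) = 1 := by
  rw [← Matrix.GeneralLinearGroup.coe_mul, inv_mul_cancel]; rfl

theorem Dgs_comm {P : Matrix.GeneralLinearGroup (Fin n) K} {X Y : Matrix (Fin n) (Fin n) K}
    (hX : X ∈ Dgs P) (hY : Y ∈ Dgs P) : X * Y = Y * X := by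
  obtain ⟨x, rfl⟩ := hX
  obtain ⟨y, rfl⟩ := hY
  have h1 : ∀ x y : Fin n → K, ((P : Matrix (Fin n) (Fin n) K) * Matrix.diagonal x *
      ((P⁻¹ : Matrix.GeneralLinearGroup (Fin n) K) : Matrix (Fin n) (Fin n) K)) *
      ((P : Matrix (Fin n) (Fin n) K) * Matrix.diagonal y *
      ((P⁻¹ : Matrix.GeneralLinearGroup (Fin n) K) : Matrix (Fin n) (Fin n) K)) =
      (P : Matrix (Fin n) (Fin n) K) * (Matrix.diagonal x * Matrix.diagonal y) *
      ((P⁻¹ : Matrix.GeneralLinearGroup (Fin n) K) : Matrix (Fin n) (Fin n) K) := by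
    intro x y
    rw [Matrix.mul_assoc (P : Matrix (Fin n) (Fin n) K) (Matrix.diagonal y), Matrix.mul_assoc,
      ← Matrix.mul_assoc _ (P : Matrix (Fin n) (Fin n) K), gl_inv_mul, Matrix.one_mul,
      Matrix.mul_assoc, Matrix.mul_assoc, Matrix.mul_assoc]
  rw [h1, h1, Matrix.diagonal_mul_diagonal, Matrix.diagonal_mul_diagonal]
  simp only [mul_comm]

/-- from eigenvectors to the diagonal form -/
theorem eig_diag {P : Matrix.GeneralLinearGroup (Fin n) K} {X : Matrix (Fin n) (Fin n) K}
    {x : Fin n → K} (h : X * (P : Matrix (Fin n) (Fin n) K) =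
      (P : Matrix (Fin n) (Fin n) K) * Matrix.diagonal x) :
    X = (P : Matrix (Fin n) (Fin n) K) * Matrix.diagonal x *
      ((P⁻¹ : Matrix.GeneralLinearGroup (Fin n) K) : Matrix (Fin n) (Fin n) K) ∧
    ∀ j, evl P X j = x j := by
  constructor
  · rw [← h, Matrix.mul_assoc, gl_mul_inv, Matrix.mul_one]
  · intro j
    unfold evl
    rw [Matrix.mul_assoc, h, ← Matrix.mul_assoc, gl_inv_mul, Matrix.one_mul,
      Matrix.diagonal_apply_eq]

/-- `evl` as a linear map -/
noncomputable def evlL (P : Matrix.GeneralLinearGroup (Fin n) K) (j : Fin n) :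
    Matrix (Fin n) (Fin n) K →ₗ[K] K where
  toFun X := evl P X j
  map_add' X Y := by
    unfold evl
    rw [Matrix.mul_add, Matrix.add_mul]; rfl
  map_smul' c X := by
    unfold evl
    rw [Matrix.mul_smul, Matrix.smul_mul]; rfl

/-- `adj` as a linear map -/
noncomputable def adjL (ψ : Matrix (Fin n) (Fin n) K) :
    Matrix (Fin n) (Fin n) K →ₗ[K] Matrix (Fin n) (Fin n) K where
  toFun X := adj ψ X
  map_add' X Y := by
    unfold adj
    rw [Matrix.transpose_add, Matrix.mul_add, Matrix.add_mul]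
  map_smul' c X := by
    unfold adj
    rw [Matrix.transpose_smul, Matrix.mul_smul, Matrix.smul_mul]; rfl

theorem adj_map {C : Type} [Field C] (f : K →+* C) {ψ : Matrix (Fin n) (Fin n) K}
    (hψ : ψ.det ≠ 0) (X : Matrix (Fin n) (Fin n) K) :
    adj (ψ.map f) (X.map f) = (adj ψ X).map f := by
  have h1 : (ψ.map f)⁻¹ = (ψ⁻¹).map f := by
    apply Matrix.inv_eq_right_inv
    rw [← Matrix.map_mul, Matrix.mul_nonsing_inv ψ (isUnit_iff_ne_zero.mpr hψ),
      Matrix.map_one f (map_zero f) (map_one f)]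
  unfold adj
  rw [h1, ← Matrix.transpose_map, ← Matrix.map_mul, ← Matrix.map_mul]

end base

section rhom

variable {n : ℕ} {E : Submodule ℚ (Matrix (Fin n) (Fin n) ℚ)}

/-- eigenvalues give ring homomorphisms -/
theorem rhom_of_eig {F C : Type} [Field F] [Field C] [CharZero C] (ι : F →+* C)
    {P : Matrix.GeneralLinearGroup (Fin n) C} {e : Matrix (Fin n) (Fin n) ℚ → Fin n → F}
    (h1 : 1 ∈ E) (hm : ∀ X ∈ E, ∀ Y ∈ E, X * Y ∈ E)
    (h : ∀ X ∈ E, X.map (algebraMap ℚ C) * (P : Matrix (Fin n) (Fin n) C) =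
      (P : Matrix (Fin n) (Fin n) C) * Matrix.diagonal (fun j => ι (e X j))) (j : Fin n) :
    RHom E (fun X => e X j) := by
  have hc : ∀ x y : Fin n → C, (P : Matrix (Fin n) (Fin n) C) * Matrix.diagonal x =
      (P : Matrix (Fin n) (Fin n) C) * Matrix.diagonal y → x j = y j := by
    intro x y hxy
    have h2 := congrArg (fun M => ((P⁻¹ : Matrix.GeneralLinearGroup (Fin n) C) :
      Matrix (Fin n) (Fin n) C) * M) hxy
    simp only [← Matrix.mul_assoc, gl_inv_mul, Matrix.one_mul] at h2
    exact congrFun (Matrix.diagonal_injective h2) j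
  refine ⟨ι.injective ?_, fun X hX Y hY => ι.injective ?_, fun X hX Y hY => ι.injective ?_⟩
  · rw [map_one]
    refine hc (fun j => ι (e 1 j)) (fun _ => 1) ?_
    rw [← h 1 h1, Matrix.map_one _ (map_zero _) (map_one _), Matrix.one_mul, Matrix.diagonal_one,
      Matrix.mul_one]
  · rw [map_add]
    refine hc (fun j => ι (e (X + Y) j)) (fun j => ι (e X j) + ι (e Y j)) ?_
    rw [← h _ (E.add_mem hX hY), Matrix.map_add _ (fun x y => map_add (algebraMap ℚ C) x y),
      Matrix.add_mul, h X hX, h Y hY, ← Matrix.mul_add, Matrix.diagonal_add]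
  · rw [map_mul]
    refine hc (fun j => ι (e (X * Y) j)) (fun j => ι (e X j) * ι (e Y j)) ?_
    rw [← h _ (hm X hX Y hY), Matrix.map_mul, Matrix.mul_assoc, h Y hY, ← Matrix.mul_assoc, h X hX,
      Matrix.mul_assoc, Matrix.diagonal_mul_diagonal]

end rhom

section tower

variable {K₀ C : Type} [Field K₀] [CharZero K₀] [Field C] [CharZero C] [Algebra K₀ C] {n : ℕ}

theorem map_tower (X : Matrix (Fin n) (Fin n) ℚ) :
    (X.map (algebraMap ℚ K₀)).map (algebraMap K₀ C) = X.map (algebraMap ℚ C) := by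
  ext i j
  rw [Matrix.map_apply, Matrix.map_apply, Matrix.map_apply]
  simp

theorem spn_spn (E : Submodule ℚ (Matrix (Fin n) (Fin n) ℚ)) : spn C (spn K₀ E) = spn C E := by
  apply le_antisymm
  · refine spn_le _ _ fun A hA => ?_
    induction hA using Submodule.span_induction with
    | mem x hx =>
      obtain ⟨B, hB, rfl⟩ := hx
      rw [map_tower]
      exact mem_spn E hB
    | zero =>
      rw [Matrix.map_zero _ (map_zero _)]
      exact Submodule.zero_mem _
    | add x y _ _ hx hy =>
      rw [Matrix.map_add _ (fun x y => map_add (algebraMap K₀ C) x y)]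
      exact Submodule.add_mem _ hx hy
    | smul c x _ hx =>
      have : (c • x).map (algebraMap K₀ C) = algebraMap K₀ C c • x.map (algebraMap K₀ C) := by
        ext i j
        simp
      rw [this]
      exact Submodule.smul_mem _ _ hx
  · refine spn_le _ _ fun A hA => ?_
    rw [← map_tower (K₀ := K₀)]
    exact mem_spn _ (mem_spn E hA)

omit [CharZero C] [Algebra K₀ C] in
/-- the Lefschetz Lie algebra over `K₀` of a commutant defined over `ℚ` -/
theorem Lef_spn (ψ : Matrix (Fin n) (Fin n) ℚ) (E : Submodule ℚ (Matrix (Fin n) (Fin n) ℚ))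
    (U : Submodule K₀ (Matrix (Fin n) (Fin n) K₀)) (hU : Cmt U = spn K₀ E) :
    Lef (ψ.map (algebraMap ℚ K₀)) U = spn K₀ (LefE ψ E) := by
  apply le_antisymm
  · rintro A ⟨hA, hX⟩
    refine mem_spn_of_coord _ _ fun π => ?_
    have hl : ∀ Y : Matrix (Fin n) (Fin n) ℚ,
        (Y.map (algebraMap ℚ K₀) * A).map π = Y * A.map π := by
      intro Y
      ext i j
      rw [Matrix.map_apply, Matrix.mul_apply, Matrix.mul_apply, map_sum]
      refine Finset.sum_congr rfl fun k _ => ?_
      rw [Matrix.map_apply, Matrix.map_apply, ← Algebra.smul_def, map_smul, smul_eq_mul]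
    have hr : ∀ (B : Matrix (Fin n) (Fin n) K₀) (Y : Matrix (Fin n) (Fin n) ℚ),
        (B * Y.map (algebraMap ℚ K₀)).map π = B.map π * Y := by
      intro B Y
      ext i j
      rw [Matrix.map_apply, Matrix.mul_apply, Matrix.mul_apply, map_sum]
      refine Finset.sum_congr rfl fun k _ => ?_
      rw [Matrix.map_apply, Matrix.map_apply, mul_comm, ← Algebra.smul_def, map_smul, smul_eq_mul,
        mul_comm]
    constructor
    · have h1 := congrArg (fun M => M.map π) hA
      rw [Matrix.map_add _ (fun x y => map_add π x y), hr, hl, Matrix.map_zero _ (map_zero π)] at h1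
      exact h1
    · intro X hXE
      have h1 := congrArg (fun M => M.map π) (hX (X.map (algebraMap ℚ K₀))
        (by rw [hU]; exact mem_spn E hXE))
      rw [hr, hl] at h1
      exact h1
  · refine spn_le _ _ fun A hA => ⟨?_, fun X hX => ?_⟩
    · have h1 := congrArg (fun M => M.map (algebraMap ℚ K₀)) hA.1
      rw [Matrix.map_add _ (fun x y => map_add (algebraMap ℚ K₀) x y), Matrix.map_mul,
        Matrix.map_mul, Matrix.transpose_map, Matrix.map_zero _ (map_zero _)] at h1
      exact h1
    · rw [hU] at hX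
      induction hX using Submodule.span_induction with
      | mem x hx =>
        obtain ⟨B, hB, rfl⟩ := hx
        rw [← Matrix.map_mul, ← Matrix.map_mul, hA.2 B hB]
      | zero => rw [Matrix.mul_zero, Matrix.zero_mul]
      | add x y _ _ hx hy => rw [Matrix.mul_add, Matrix.add_mul, hx, hy]
      | smul c x _ hx => rw [Matrix.mul_smul, Matrix.smul_mul, hx]

end tower

end EM
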