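import Pool.Agent.Helper82.EM.HLI
import Pool.Agent.Helper82.EM.PRA
import Pool.Agent.Helper82.EM.ENG
import Pool.Agent.Helper6.D2.WT0
import Pool.Agent.Helper3.D2.SML

/-!
# T33, row WKE: weak absoluteness
-/

set_option autoImplicit false

namespace EH.H82

open Matrix Pool.Agent.Helper82.AHS Pool.Agent.Helper21.TH

variable {r : ℕ} {V : HS r} {Q : Matrix (Fin r) (Fin r) ℚ}

/-- infinitesimal isometries over `ℂ` -/
def Skw (Q : Matrix (Fin r) (Fin r) ℚ) (x : Matrix (Fin r) (Fin r) ℂ) : Prop :=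
  xᵀ * Q.map (algebraMap ℚ ℂ) + Q.map (algebraMap ℚ ℂ) * x = 0

theorem map_smul_rat (c : ℚ) (M : Matrix (Fin r) (Fin r) ℚ) :
    (c • M).map (algebraMap ℚ ℂ) = (algebraMap ℚ ℂ c) • M.map (algebraMap ℚ ℂ) := by
  ext i j
  simp

theorem mem_spn_aM {X : Matrix (Fin r) (Fin r) ℂ} : X ∈ MT.spn ℂ (aM V) ↔
    ∃ x ∈ ext ℂ (Ann ℚ V.HT), ∃ c : ℂ, X = x + c • 1 := by
  constructor
  · intro hX
    refine Submodule.span_induction
      (p := fun X _ => ∃ x ∈ ext ℂ (Ann ℚ V.HT), ∃ c : ℂ, X = x + c • 1) ?_ ?_ ?_ ?_ hX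
    · rintro _ ⟨A, hA, rfl⟩
      obtain ⟨x, hx, c, rfl⟩ := mem_aM.mp hA
      refine ⟨_, map_mem_ext hx, algebraMap ℚ ℂ c, ?_⟩
      rw [Matrix.map_add _ (fun a b => map_add (algebraMap ℚ ℂ) a b), map_smul_rat,
        Matrix.map_one _ (map_zero _) (map_one _)]
    · exact ⟨0, Submodule.zero_mem _, 0, by rw [zero_smul, add_zero]⟩
    · rintro X Y _ _ ⟨x, hx, c, rfl⟩ ⟨y, hy, d, rfl⟩
      refine ⟨x + y, Submodule.add_mem _ hx hy, c + d, ?_⟩
      rw [add_smul]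
      abel
    · rintro a X _ ⟨x, hx, c, rfl⟩
      refine ⟨a • x, Submodule.smul_mem _ _ hx, a * c, ?_⟩
      rw [smul_add, smul_smul]
  · rintro ⟨x, hx, c, rfl⟩
    refine Submodule.add_mem _ ?_ (Submodule.smul_mem _ _ ?_)
    · refine Submodule.span_mono ?_ hx
      rintro _ ⟨u, hu, rfl⟩
      exact ⟨u, ann_le_aM hu, rfl⟩
    · refine Submodule.subset_span ⟨1, one_mem_aM, ?_⟩
      rw [Matrix.map_one _ (map_zero _) (map_one _)]

/-- the scalars are in the annihilator if the weight is not zero -/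
theorem one_mem_ann {w : ℤ} (wt0 : ST_WT0) (hpure : ∀ i, V.p i + V.q i = w) (hw : w ≠ 0) :
    (1 : Matrix (Fin r) (Fin r) ℚ) ∈ Ann ℚ V.HT := by
  intro m n t ht
  rw [up_rat]
  show dr m 1 * t = t * dr n 1
  rw [dr_one_eq, dr_one_eq]
  by_cases hmn : m = n
  · subst hmn
    simp only [Matrix.smul_mul, Matrix.mul_smul, Matrix.one_mul, Matrix.mul_one]
  · rw [wt0 r m n V w t hpure hw hmn ht, Matrix.mul_zero, Matrix.zero_mul]

theorem ext_skew {w : ℤ} (hQ : V.Pol Q) (hpure : ∀ i, V.p i + V.q i = w) (hw : w = 0)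
    {K : Type} [Field K] [Algebra ℚ K] {x : Matrix (Fin r) (Fin r) K} (hx : x ∈ Ann K V.HT) :
    xᵀ * Q.map (algebraMap ℚ K) + Q.map (algebraMap ℚ K) * x = 0 := by
  obtain ⟨hdet, -, -, hrel⟩ := st_SYM r V w Q hpure hQ
  have hform : V.Hodge (formT Q) := ((st_KPL r ℂ Q V.D hdet).2).mpr (by
    rw [hrel, hw, Int.cast_zero, zero_smul])
  exact ((st_KPL r K Q x hdet).2).mp (hx 0 2 (formT Q) hform)

theorem mem_ext_iff {w : ℤ} (wt0 : ST_WT0) (hQ : V.Pol Q) (hpure : ∀ i, V.p i + V.q i = w)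
    {x : Matrix (Fin r) (Fin r) ℂ} : x ∈ ext ℂ (Ann ℚ V.HT) ↔
      x ∈ MT.spn ℂ (aM V) ∧ (w = 0 → Skw Q x) := by
  obtain ⟨hdet, -, -, -⟩ := st_SYM r V w Q hpure hQ
  constructor
  · intro hx
    exact ⟨mem_spn_aM.mpr ⟨x, hx, 0, by rw [zero_smul, add_zero]⟩,
      fun hw => ext_skew hQ hpure hw (ext_ann.mp hx)⟩
  · rintro ⟨hx, hs⟩
    obtain ⟨y, hy, c, rfl⟩ := mem_spn_aM.mp hx
    by_cases hw : w = 0
    · have h1 := hs hw
      have h2 : yᵀ * Q.map (algebraMap ℚ ℂ) + Q.map (algebraMap ℚ ℂ) * y = 0 :=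
        ext_skew hQ hpure hw (ext_ann.mp hy)
      unfold Skw at h1
      rw [Matrix.transpose_add, Matrix.transpose_smul, Matrix.transpose_one, Matrix.add_mul,
        Matrix.mul_add, Matrix.smul_mul, Matrix.mul_smul, Matrix.one_mul, Matrix.mul_one] at h1
      have h3 : (2 * c) • Q.map (algebraMap ℚ ℂ) = 0 := by
        rw [mul_smul, two_smul]
        calc c • Q.map (algebraMap ℚ ℂ) + c • Q.map (algebraMap ℚ ℂ) =
            (yᵀ * Q.map (algebraMap ℚ ℂ) + c • Q.map (algebraMap ℚ ℂ) +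
              (Q.map (algebraMap ℚ ℂ) * y + c • Q.map (algebraMap ℚ ℂ))) -
              (yᵀ * Q.map (algebraMap ℚ ℂ) + Q.map (algebraMap ℚ ℂ) * y) := by abel
          _ = 0 := by rw [h1, h2, sub_zero]
      rcases smul_eq_zero.mp h3 with h4 | h4
      · have hc : c = 0 := by
          rcases mul_eq_zero.mp h4 with h5 | h5
          · exact absurd h5 two_ne_zero
          · exact h5
        rw [hc, zero_smul, add_zero]
        exact hy
      · have h5 : Q = 0 := by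
          apply map_inj
          rw [h4, Matrix.map_zero _ (map_zero _)]
        rcases Nat.eq_zero_or_pos r with rfl | hr
        · have : y + c • (1 : Matrix (Fin 0) (Fin 0) ℂ) = y := Subsingleton.elim _ _
          rw [this]
          exact hy
        · exfalso
          have : Nonempty (Fin r) := ⟨⟨0, hr⟩⟩
          rw [h5] at hdet
          exact hdet Matrix.det_zero
    · refine Submodule.add_mem _ hy (Submodule.smul_mem _ _ ?_)
      have h1 := map_mem_ext (K := ℂ) (one_mem_ann wt0 hpure hw)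
      rwa [Matrix.map_one _ (map_zero _) (map_one _)] at h1

/-- the trace form on `aM V` is non-degenerate -/
theorem nd_aM {w : ℤ} (wt0 : ST_WT0) (hQ : V.Pol Q) (hpure : ∀ i, V.p i + V.q i = w) :
    ∀ A ∈ aM V, (∀ B ∈ aM V, (A * B).trace = 0) → A = 0 := by
  obtain ⟨hdet, -, -, -⟩ := st_SYM r V w Q hpure hQ
  intro A hA h0
  obtain ⟨a, ha, c, rfl⟩ := mem_aM.mp hA
  by_cases hw : w = 0
  · have h1 := ext_skew (K := ℚ) hQ hpure hw ha
    rw [map_rat] at h1
    have h2 : 2 * a.trace = r * (0 : ℚ) := EM.mul_of_trace hdet (by rw [h1, zero_smul])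
    have h3 : a.trace = 0 := by linarith
    have h4 := h0 1 one_mem_aM
    rw [Matrix.mul_one, Matrix.trace_add, h3, Matrix.trace_smul, Matrix.trace_one,
      Fintype.card_fin, zero_add, smul_eq_mul] at h4
    rcases Nat.eq_zero_or_pos r with rfl | hr
    · exact Subsingleton.elim _ _
    · have hc : c = 0 := by
        rcases mul_eq_zero.mp h4 with h5 | h5
        · exact h5
        · exact absurd h5 (Nat.cast_ne_zero.mpr hr.ne')
      subst hc
      rw [zero_smul, add_zero] at h0 ⊢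
      exact nd_rat hQ a ha fun b hb => h0 b (ann_le_aM hb)
  · exact nd_rat hQ _ (Submodule.add_mem _ ha (Submodule.smul_mem _ _
      (one_mem_ann wt0 hpure hw))) fun b hb => h0 b (ann_le_aM hb)

theorem der_spn_le {K₀ K : Type} [Field K₀] [Field K] [Algebra K₀ K] {n : ℕ}
    (h : ∀ U : Submodule K₀ (Matrix (Fin n) (Fin n) K₀), HG.der (MT.spn K U) =
      MT.spn K (HG.der U)) (U : Submodule K₀ (Matrix (Fin n) (Fin n) K₀))
    {A B : Matrix (Fin n) (Fin n) K} (hA : A ∈ MT.spn K U) (hB : B ∈ MT.spn K U) :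
    A * B - B * A ∈ MT.spn K (HG.der U) := by
  rw [← h]
  exact Submodule.subset_span ⟨A, hA, B, hB, rfl⟩

/-- linear maps which preserve the span of `aM V` -/
theorem pres {w : ℤ} (rdc : ST_RDC) (wt0 : ST_WT0) (hQ : V.Pol Q)
    (hpure : ∀ i, V.p i + V.q i = w) (hder : HG.der (aM V) = HG.der (EM.LefE Q (EndS V)))
    (φ : Matrix (Fin r) (Fin r) ℂ →ₗ[ℂ] Matrix (Fin r) (Fin r) ℂ)
    (hC : ∀ C ∈ aM V, IsEnd V C → φ (C.map (algebraMap ℚ ℂ)) ∈ MT.spn ℂ (aM V))
    (hB : ∀ A ∈ EM.LefE Q (EndS V), ∀ B ∈ EM.LefE Q (EndS V),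
      φ ((A * B - B * A).map (algebraMap ℚ ℂ)) ∈ MT.spn ℂ (HG.der (EM.LefE Q (EndS V))))
    {x : Matrix (Fin r) (Fin r) ℂ} (hx : x ∈ MT.spn ℂ (aM V)) : φ x ∈ MT.spn ℂ (aM V) := by
  obtain ⟨hbrk, -, htrn, hcmt, -, -⟩ := st_HLI r V w Q hpure hQ
  have hle : MT.spn ℂ (HG.der (EM.LefE Q (EndS V))) ≤ MT.spn ℂ (aM V) := by
    rw [← hder]
    refine EM.spn_mono (Submodule.span_le.mpr ?_)
    rintro _ ⟨A, hA, B, hB, rfl⟩
    exact hbrk A hA B hB
  refine Submodule.span_induction (p := fun x _ => φ x ∈ MT.spn ℂ (aM V)) ?_ ?_ ?_ ?_ hx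
  · rintro _ ⟨X, hX, rfl⟩
    obtain ⟨B, hB1, C, hC1, hC2, rfl⟩ := rdc ℚ r (aM V) hbrk htrn (nd_aM wt0 hQ hpure) X hX
    rw [Matrix.map_add _ (fun a b => map_add (algebraMap ℚ ℂ) a b), map_add]
    refine Submodule.add_mem _ (hle ?_) (hC C hC1 ((hcmt C).mp fun A hA => (hC2 A hA).symm))
    rw [hder] at hB1
    refine Submodule.span_induction (p := fun B _ => φ (B.map (algebraMap ℚ ℂ)) ∈
      MT.spn ℂ (HG.der (EM.LefE Q (EndS V)))) ?_ ?_ ?_ ?_ hB1
    · rintro _ ⟨A, hA, A', hA', rfl⟩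
      exact hB A hA A' hA'
    · rw [Matrix.map_zero _ (map_zero _), map_zero]
      exact Submodule.zero_mem _
    · intro a b _ _ ha hb
      rw [Matrix.map_add _ (fun a b => map_add (algebraMap ℚ ℂ) a b), map_add]
      exact Submodule.add_mem _ ha hb
    · intro c a _ ha
      rw [map_smul_rat, map_smul]
      exact Submodule.smul_mem _ _ ha
  · rw [map_zero]; exact Submodule.zero_mem _
  · intro a b _ _ ha hb; rw [map_add]; exact Submodule.add_mem _ ha hb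
  · intro c a _ ha; rw [map_smul]; exact Submodule.smul_mem _ _ ha

/-- complex skew matrices which commute with the endomorphisms -/
theorem mem_lefE {w : ℤ} (bch : EM.ST_BCH) (hQ : V.Pol Q) (hpure : ∀ i, V.p i + V.q i = w)
    {x : Matrix (Fin r) (Fin r) ℂ} (hx : Skw Q x)
    (hc : ∀ X, IsEnd V X → x * X.map (algebraMap ℚ ℂ) = X.map (algebraMap ℚ ℂ) * x) :
    x ∈ MT.spn ℂ (EM.LefE Q (EndS V)) := by
  obtain ⟨-, -, -, hcmt, -, -⟩ := st_HLI r V w Q hpure hQ
  have h1 : EM.Cmt (aM V) = EndS V := by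
    ext X
    exact hcmt X
  have h2 : EM.Cmt (MT.spn ℂ (aM V)) = MT.spn ℂ (EndS V) := by
    rw [(bch ℚ ℂ r Q (aM V)).1, h1]
  rw [← EM.Lef_spn Q (EndS V) (MT.spn ℂ (aM V)) h2]
  refine ⟨hx, fun X hX => ?_⟩
  rw [h2] at hX
  refine Submodule.span_induction (p := fun X _ => x * X = X * x) ?_ ?_ ?_ ?_ hX
  · rintro _ ⟨Y, hY, rfl⟩
    exact hc Y hY
  · rw [Matrix.mul_zero, Matrix.zero_mul]
  · intro a b _ _ ha hb; rw [Matrix.mul_add, Matrix.add_mul, ha, hb]
  · intro c a _ ha; rw [Matrix.mul_smul, Matrix.smul_mul, ha]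

theorem lefE_skw {A : Matrix (Fin r) (Fin r) ℚ} (hA : A ∈ EM.LefE Q (EndS V)) :
    Skw Q (A.map (algebraMap ℚ ℂ)) := by
  unfold Skw
  rw [← Matrix.transpose_map, ← Matrix.map_mul, ← Matrix.map_mul,
    ← Matrix.map_add _ (fun a b => map_add (algebraMap ℚ ℂ) a b), hA.1,
    Matrix.map_zero _ (map_zero _)]

theorem lefE_comm {A : Matrix (Fin r) (Fin r) ℚ} (hA : A ∈ EM.LefE Q (EndS V)) {X}
    (hX : IsEnd V X) : A.map (algebraMap ℚ ℂ) * X.map (algebraMap ℚ ℂ) =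
      X.map (algebraMap ℚ ℂ) * A.map (algebraMap ℚ ℂ) := by
  rw [← Matrix.map_mul, ← Matrix.map_mul, hA.2 X hX]

/-- a similitude preserves skewness -/
theorem skw_conj {g g' : Matrix (Fin r) (Fin r) ℂ} (e1 : g * g' = 1) (e2 : g' * g = 1) {c : ℂ}
    (hg : gᵀ * Q.map (algebraMap ℚ ℂ) * g = c • Q.map (algebraMap ℚ ℂ))
    {x : Matrix (Fin r) (Fin r) ℂ} (hx : Skw Q x) : Skw Q (g * x * g') := by
  unfold Skw at *
  set q := Q.map (algebraMap ℚ ℂ) with hq
  have e1t : g'ᵀ * gᵀ = 1 := by rw [← Matrix.transpose_mul, e1, Matrix.transpose_one]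
  have e2t : gᵀ * g'ᵀ = 1 := by rw [← Matrix.transpose_mul, e2, Matrix.transpose_one]
  have h1 : gᵀ * ((g * x * g')ᵀ * q + q * (g * x * g')) * g = 0 := by
    calc gᵀ * ((g * x * g')ᵀ * q + q * (g * x * g')) * g
        = gᵀ * (g'ᵀ * (xᵀ * gᵀ) * q) * g + gᵀ * (q * (g * x * g')) * g := by
          rw [Matrix.transpose_mul, Matrix.transpose_mul, Matrix.mul_add, Matrix.add_mul]
      _ = (gᵀ * g'ᵀ) * xᵀ * (gᵀ * q * g) + (gᵀ * q * g) * x * (g' * g) := by
          simp only [Matrix.mul_assoc]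
      _ = c • (xᵀ * q + q * x) := by
          rw [e2t, e2, hg, Matrix.one_mul, Matrix.mul_one, Matrix.mul_smul, Matrix.smul_mul,
            smul_add]
      _ = 0 := by rw [hx, smul_zero]
  calc (g * x * g')ᵀ * q + q * (g * x * g')
      = (g'ᵀ * gᵀ) * ((g * x * g')ᵀ * q + q * (g * x * g')) * (g * g') := by
        rw [e1t, e1, Matrix.one_mul, Matrix.mul_one]
    _ = g'ᵀ * (gᵀ * ((g * x * g')ᵀ * q + q * (g * x * g')) * g) * g' := by
        simp only [Matrix.mul_assoc]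
    _ = 0 := by rw [h1, Matrix.mul_zero, Matrix.zero_mul]

/-- an infinitesimal similitude preserves skewness -/
theorem skw_ad {y : Matrix (Fin r) (Fin r) ℂ} {c : ℂ}
    (hy : yᵀ * Q.map (algebraMap ℚ ℂ) + Q.map (algebraMap ℚ ℂ) * y = c • Q.map (algebraMap ℚ ℂ))
    {x : Matrix (Fin r) (Fin r) ℂ} (hx : Skw Q x) : Skw Q (y * x - x * y) := by
  unfold Skw at *
  set q := Q.map (algebraMap ℚ ℂ) with hq
  have h1 : xᵀ * q = -(q * x) := eq_neg_of_add_eq_zero_left hx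
  have h2 : yᵀ * q = c • q - q * y := eq_sub_of_add_eq hy
  have h3 : xᵀ * (yᵀ * q) = c • (xᵀ * q) + q * x * y := by
    rw [h2, Matrix.mul_sub, Matrix.mul_smul, ← Matrix.mul_assoc, h1, Matrix.neg_mul]
    abel
  have h4 : yᵀ * (xᵀ * q) = -(c • (q * x)) + q * y * x := by
    rw [h1, Matrix.mul_neg, ← Matrix.mul_assoc, h2, Matrix.sub_mul, Matrix.smul_mul]
    abel
  rw [Matrix.transpose_sub, Matrix.transpose_mul, Matrix.transpose_mul, Matrix.sub_mul,
    Matrix.mul_assoc, Matrix.mul_assoc, h3, h4, h1, Matrix.mul_sub, smul_neg,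
    ← Matrix.mul_assoc, ← Matrix.mul_assoc]
  abel

theorem pw_one' {K : Type*} [CommRing K] (g : Matrix (Fin r) (Fin r) K) : pw 1 g = t11 g := by
  ext i j
  show ∏ a : Fin 1, g (i a) (j a) = g (i 0) (j 0)
  rw [Fin.prod_univ_one]

theorem act_t11 (g : GL (Fin r) ℂ) (X : Matrix (Fin r) (Fin r) ℂ) :
    act g (t11 X) = t11 ((g : Matrix (Fin r) (Fin r) ℂ) * X *
      ((g⁻¹ : GL (Fin r) ℂ) : Matrix (Fin r) (Fin r) ℂ)) := by
  unfold act
  rw [pw_one', pw_one', t11_mul, t11_mul]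

end EH.H82

namespace EH

open Matrix Pool.Agent.Helper82.AHS Pool.Agent.Helper21.TH

/-- Row WKE. -/
theorem st_WKE (mth : ST_MTH) (rdc : ST_RDC) (bch : EM.ST_BCH) : ST_WKE := by
  intro r S w c w' h P x hAda hGood σ hpolA hendA
  have hQ := S.pol
  have hpure := hAda.pure
  obtain ⟨hdet, -, -, hrel⟩ := st_SYM r S.V w S.Q hpure hQ
  have wt0 : ST_WT0 := st_WT0
  have hpol : S.V.Hodge (polT S.Q) := ((st_KPL r ℂ S.Q S.V.D hdet).1).mpr ⟨(w : ℂ), hrel⟩
  have hend : ∀ X, IsEnd S.V X → S.V.Hodge (t11 X) := by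
    intro X hX
    rw [S.V.hodge_iff, up_t11, kill_t11]
    exact hX.symm
  have hder := (mth r S.V w c w' h P x S.Q hQ hAda hGood).1
  obtain ⟨hbrk, -, -, hcmt, -, -⟩ := st_HLI r S.V w S.Q hpure hQ
  have hbr : ∀ A ∈ MT.spn ℂ (EM.LefE S.Q (EndS S.V)), ∀ B ∈ MT.spn ℂ (EM.LefE S.Q (EndS S.V)),
      A * B - B * A ∈ MT.spn ℂ (HG.der (EM.LefE S.Q (EndS S.V))) := fun A hA B hB =>
    H82.der_spn_le (fun U => (bch ℚ ℂ r S.Q U).2.2.1) _ hA hB
  have hmap : ∀ A B : Matrix (Fin r) (Fin r) ℚ, (A * B - B * A).map (algebraMap ℚ ℂ) =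
      A.map (algebraMap ℚ ℂ) * B.map (algebraMap ℚ ℂ) -
        B.map (algebraMap ℚ ℂ) * A.map (algebraMap ℚ ℂ) := by
    intro A B
    rw [Matrix.map_sub _ (fun a b => map_sub _ a b), Matrix.map_mul, Matrix.map_mul]
  -- the group part
  have hgrp : ∀ (g g' : Matrix (Fin r) (Fin r) ℂ), g * g' = 1 → g' * g = 1 → ∀ d : ℂ,
      gᵀ * S.Q.map (algebraMap ℚ ℂ) * g = d • S.Q.map (algebraMap ℚ ℂ) →
      (∀ X, IsEnd S.V X → g * X.map (algebraMap ℚ ℂ) = X.map (algebraMap ℚ ℂ) * g) →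
      ∀ z ∈ ext ℂ (Ann ℚ S.V.HT), g * z * g' ∈ ext ℂ (Ann ℚ S.V.HT) := by
    intro g g' e1 e2 d hg hgX z hz
    have hg'X : ∀ X, IsEnd S.V X → g' * X.map (algebraMap ℚ ℂ) =
        X.map (algebraMap ℚ ℂ) * g' := by
      intro X hX
      calc g' * X.map (algebraMap ℚ ℂ) = g' * (X.map (algebraMap ℚ ℂ) * g) * g' := by
            rw [Matrix.mul_assoc, Matrix.mul_assoc, e1, Matrix.mul_one]
        _ = (g' * g) * X.map (algebraMap ℚ ℂ) * g' := by
            rw [← hgX X hX]; simp only [Matrix.mul_assoc]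
        _ = _ := by rw [e2, Matrix.one_mul]
    rw [H82.mem_ext_iff wt0 hQ hpure] at hz ⊢
    refine ⟨?_, fun hw => H82.skw_conj e1 e2 hg (hz.2 hw)⟩
    let φ : Matrix (Fin r) (Fin r) ℂ →ₗ[ℂ] Matrix (Fin r) (Fin r) ℂ :=
      { toFun := fun x => g * x * g'
        map_add' := fun x y => by rw [Matrix.mul_add, Matrix.add_mul]
        map_smul' := fun c x => by rw [Matrix.mul_smul, Matrix.smul_mul, RingHom.id_apply] }
    have hcj : ∀ a b : Matrix (Fin r) (Fin r) ℂ, (g * a * g') * (g * b * g') =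
        g * (a * b) * g' := fun a b => Pool.Agent.Helper82.AHS.conj_mul e2
    have hL : ∀ A ∈ EM.LefE S.Q (EndS S.V), g * A.map (algebraMap ℚ ℂ) * g' ∈
        MT.spn ℂ (EM.LefE S.Q (EndS S.V)) := by
      intro A hA
      refine H82.mem_lefE bch hQ hpure (H82.skw_conj e1 e2 hg (H82.lefE_skw hA)) fun X hX => ?_
      calc g * A.map (algebraMap ℚ ℂ) * g' * X.map (algebraMap ℚ ℂ)
          = g * (A.map (algebraMap ℚ ℂ) * (g' * X.map (algebraMap ℚ ℂ))) := by
            simp only [Matrix.mul_assoc]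
        _ = g * ((A.map (algebraMap ℚ ℂ) * X.map (algebraMap ℚ ℂ)) * g') := by
            rw [hg'X X hX, Matrix.mul_assoc]
        _ = (g * X.map (algebraMap ℚ ℂ)) * A.map (algebraMap ℚ ℂ) * g' := by
            rw [H82.lefE_comm hA hX]; simp only [Matrix.mul_assoc]
        _ = _ := by rw [hgX X hX]; simp only [Matrix.mul_assoc]
    refine H82.pres rdc wt0 hQ hpure hder φ (fun C hC hCe => ?_) (fun A hA B hB => ?_) hz.1
    · show g * C.map (algebraMap ℚ ℂ) * g' ∈ _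
      rw [hgX C hCe, Matrix.mul_assoc, e1, Matrix.mul_one]
      exact MT.mem_spn _ hC
    · show g * (A * B - B * A).map (algebraMap ℚ ℂ) * g' ∈ _
      rw [hmap, Matrix.mul_sub, Matrix.sub_mul, ← hcj, ← hcj]
      exact hbr _ (hL A hA) _ (hL B hB)
  -- the infinitesimal part
  have hinf : ∀ (y : Matrix (Fin r) (Fin r) ℂ) (d : ℂ),
      yᵀ * S.Q.map (algebraMap ℚ ℂ) + S.Q.map (algebraMap ℚ ℂ) * y =
        d • S.Q.map (algebraMap ℚ ℂ) →
      (∀ X, IsEnd S.V X → y * X.map (algebraMap ℚ ℂ) = X.map (algebraMap ℚ ℂ) * y) →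
      ∀ z ∈ ext ℂ (Ann ℚ S.V.HT), y * z - z * y ∈ ext ℂ (Ann ℚ S.V.HT) := by
    intro y d hy hyX z hz
    rw [H82.mem_ext_iff wt0 hQ hpure] at hz ⊢
    refine ⟨?_, fun hw => H82.skw_ad hy (hz.2 hw)⟩
    let φ : Matrix (Fin r) (Fin r) ℂ →ₗ[ℂ] Matrix (Fin r) (Fin r) ℂ :=
      { toFun := fun x => y * x - x * y
        map_add' := fun a b => by rw [Matrix.mul_add, Matrix.add_mul]; abel
        map_smul' := fun c x => by
          rw [Matrix.mul_smul, Matrix.smul_mul, RingHom.id_apply, smul_sub] }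
    have hL : ∀ A ∈ EM.LefE S.Q (EndS S.V), y * A.map (algebraMap ℚ ℂ) -
        A.map (algebraMap ℚ ℂ) * y ∈ MT.spn ℂ (EM.LefE S.Q (EndS S.V)) := by
      intro A hA
      refine H82.mem_lefE bch hQ hpure (H82.skw_ad hy (H82.lefE_skw hA)) fun X hX => ?_
      rw [Matrix.sub_mul, Matrix.mul_sub, Matrix.mul_assoc y, H82.lefE_comm hA hX,
        Matrix.mul_assoc _ y, hyX X hX, ← Matrix.mul_assoc, hyX X hX, ← Matrix.mul_assoc,
        H82.lefE_comm hA hX]
      simp only [Matrix.mul_assoc]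
    have hA0 : ∀ A ∈ EM.LefE S.Q (EndS S.V), A.map (algebraMap ℚ ℂ) ∈
        MT.spn ℂ (EM.LefE S.Q (EndS S.V)) := fun A hA => MT.mem_spn _ hA
    refine H82.pres rdc wt0 hQ hpure hder φ (fun C hC hCe => ?_) (fun A hA B hB => ?_) hz.1
    · show y * C.map (algebraMap ℚ ℂ) - C.map (algebraMap ℚ ℂ) * y ∈ _
      rw [hyX C hCe, sub_self]
      exact Submodule.zero_mem _
    · show y * (A * B - B * A).map (algebraMap ℚ ℂ) - (A * B - B * A).map (algebraMap ℚ ℂ) * y ∈ _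
      rw [hmap]
      set a := A.map (algebraMap ℚ ℂ)
      set b := B.map (algebraMap ℚ ℂ)
      have h1 : y * (a * b - b * a) - (a * b - b * a) * y =
          ((y * a - a * y) * b - b * (y * a - a * y)) +
            (a * (y * b - b * y) - (y * b - b * y) * a) := by
        simp only [Matrix.mul_sub, Matrix.sub_mul, Matrix.mul_assoc]
        abel
      rw [h1]
      exact Submodule.add_mem _ (hbr _ (hL A hA) _ (hA0 B hB)) (hbr _ (hA0 A hA) _ (hL B hB))
  -- the projector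
  obtain ⟨π, hπ⟩ := exists_mt hQ
  have hπH : S.V.Hodge π := proj_hodge (L := S.V.HT) (fun _ _ _ ht => ht) hπ
  have habs : S.AbsAt σ π := by
    refine st_PRA r S σ 2 2 π (fun g hg => ?_) (fun y hy => ?_)
    · have e1 := gl_mul_inv g
      have e2 := gl_inv_mul g
      obtain ⟨d, hd0, hd⟩ := (st_SML r ℂ S.Q S.Q g hdet hdet).1 (hg 2 2 _ hpol hpolA).symm
      have hgX : ∀ X, IsEnd S.V X → (g : Matrix (Fin r) (Fin r) ℂ) * X.map (algebraMap ℚ ℂ) =
          X.map (algebraMap ℚ ℂ) * (g : Matrix (Fin r) (Fin r) ℂ) := by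
        intro X hX
        have h1 := hg 1 1 _ (hend X hX) (hendA X hX)
        rw [up_t11, H82.act_t11] at h1
        have h2 := t11_inj h1
        calc (g : Matrix (Fin r) (Fin r) ℂ) * X.map (algebraMap ℚ ℂ)
            = (g : Matrix (Fin r) (Fin r) ℂ) * X.map (algebraMap ℚ ℂ) *
              (((g⁻¹ : GL (Fin r) ℂ) : Matrix (Fin r) (Fin r) ℂ) *
                (g : Matrix (Fin r) (Fin r) ℂ)) := by rw [e2, Matrix.mul_one]
          _ = ((g : Matrix (Fin r) (Fin r) ℂ) * X.map (algebraMap ℚ ℂ) *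
              ((g⁻¹ : GL (Fin r) ℂ) : Matrix (Fin r) (Fin r) ℂ)) *
                (g : Matrix (Fin r) (Fin r) ℂ) := by simp only [Matrix.mul_assoc]
          _ = _ := by rw [h2]
      set g0 := (g : Matrix (Fin r) (Fin r) ℂ) with hg0
      set g' := ((g⁻¹ : GL (Fin r) ℂ) : Matrix (Fin r) (Fin r) ℂ) with hg'
      have hg'X : ∀ X, IsEnd S.V X → g' * X.map (algebraMap ℚ ℂ) =
          X.map (algebraMap ℚ ℂ) * g' := by
        intro X hX
        calc g' * X.map (algebraMap ℚ ℂ) = g' * (X.map (algebraMap ℚ ℂ) * g0) * g' := by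
              rw [Matrix.mul_assoc, Matrix.mul_assoc, e1, Matrix.mul_one]
          _ = (g' * g0) * X.map (algebraMap ℚ ℂ) * g' := by
              rw [← hgX X hX]; simp only [Matrix.mul_assoc]
          _ = _ := by rw [e2, Matrix.one_mul]
      have hd' : g'ᵀ * S.Q.map (algebraMap ℚ ℂ) * g' = d⁻¹ • S.Q.map (algebraMap ℚ ℂ) := by
        have t1 : g'ᵀ * g0ᵀ = 1 := by rw [← Matrix.transpose_mul, e1, Matrix.transpose_one]
        have t2 : S.Q.map (algebraMap ℚ ℂ) = d • (g'ᵀ * S.Q.map (algebraMap ℚ ℂ) * g') := by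
          calc S.Q.map (algebraMap ℚ ℂ)
              = (g'ᵀ * g0ᵀ) * S.Q.map (algebraMap ℚ ℂ) * (g0 * g') := by
                rw [t1, e1, Matrix.one_mul, Matrix.mul_one]
            _ = g'ᵀ * (g0ᵀ * S.Q.map (algebraMap ℚ ℂ) * g0) * g' := by
                simp only [Matrix.mul_assoc]
            _ = _ := by rw [hd, Matrix.mul_smul, Matrix.smul_mul]
        conv_rhs => rw [t2]
        rw [smul_smul, inv_mul_cancel₀ hd0, one_smul]
      have hfin := hπ.conj (K := ℂ) hπ e1 e2 (fun z => ⟨hgrp g0 g' e1 e2 d hd hgX z, fun hz => by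
        have h1 := hgrp g' g0 e2 e1 d⁻¹ hd' hg'X _ hz
        have h2 : g' * (g0 * z * g') * g0 = z := by
          calc g' * (g0 * z * g') * g0 = (g' * g0) * z * (g' * g0) := by
                simp only [Matrix.mul_assoc]
            _ = _ := by rw [e2, Matrix.one_mul, Matrix.mul_one]
        rwa [h2] at h1⟩)
      exact hfin.symm
    · obtain ⟨d, hd⟩ := ((st_KPL r ℂ S.Q y hdet).1).mp (hy 2 2 _ hpol hpolA)
      have hyX : ∀ X, IsEnd S.V X → y * X.map (algebraMap ℚ ℂ) =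
          X.map (algebraMap ℚ ℂ) * y := by
        intro X hX
        have h1 := hy 1 1 _ (hend X hX) (hendA X hX)
        rw [up_t11] at h1
        exact kill_t11.mp h1
      have hY := hinf y d hd hyX
      refine star_kill fun u => ?_
      refine hπ.uniq (hY _ (hπ.mem u)) fun z hz => ?_
      have h1 : z * y - y * z ∈ ext ℂ (Ann ℚ S.V.HT) := by
        rw [← neg_sub]
        exact Submodule.neg_mem _ (hY z hz)
      have h2 := hπ.orth u h1
      have h3 : (y * u - u * y - (y * star (up ℂ π) u - star (up ℂ π) u * y)) * z =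
          y * ((u - star (up ℂ π) u) * z) - (u - star (up ℂ π) u) * (y * z) := by
        simp only [Matrix.mul_sub, Matrix.sub_mul, Matrix.mul_assoc]
        abel
      rw [h3, trace_sub, Matrix.trace_mul_comm y, ← trace_sub, ← h2]
      congr 1
      simp only [Matrix.mul_sub, Matrix.sub_mul, Matrix.mul_assoc]
  obtain ⟨π', h1, h2, h3⟩ := habs
  obtain ⟨h4, h5⟩ := weak_of S hπ σ h1 h2 h3
  exact ⟨fun m n => Inv ℚ (LinearMap.range (starL π') : Set (Matrix (Fin r) (Fin r) ℚ)) m n,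
    h4, h5⟩

end EH
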